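import Mathlib
import Pool.Agent.Q77.LU.StmU
import Pool.Agent.Q77.LU.Base
import Pool.Agent.Q84.LU.HAARMF

/-!
# Project LU, uniform version: the logarithm of the chart in the tree gauge

The map `ul lg dc x (e, a) = lg (th x e) a` with all bounds polynomial in `l`.
-/

set_option autoImplicit false

namespace Pool.Agent.Q48.LU

open Pool.Agent.Q77.LU
open MeasureTheory Matrix Set Filter Topology
open scoped ContDiff Matrix.Norms.Frobenius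
open Pool.Agent.Q84.LU.HAARM (ExpChart dom)

noncomputable section

/-! ### general lemmas -/

lemma n2_nn {ι : Type} [Fintype ι] (v : ι → ℝ) : 0 ≤ n2 v := by
  unfold n2; positivity

lemma nx_nn {P Q : Type} [Fintype P] [Fintype Q] (x : (P → ℝ) × (Q → ℝ)) : 0 ≤ nx x :=
  add_nonneg (n2_nn _) (n2_nn _)

lemma nsq_le {P Q : Type} [Fintype P] [Fintype Q] (x : (P → ℝ) × (Q → ℝ)) :
    ‖x‖ ^ 2 ≤ nx x := Pool.Agent.Q84.LU.HAARM.norm_sq_le_nx x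

lemma n2_le_card {ι : Type} [Fintype ι] (v : ι → ℝ) :
    n2 v ≤ Fintype.card ι * ‖v‖ ^ 2 := by
  unfold n2
  calc ∑ i, v i ^ 2 ≤ ∑ _i : ι, ‖v‖ ^ 2 := by
        apply Finset.sum_le_sum
        intro i _
        have h1 : |v i| ≤ ‖v‖ := norm_le_pi_norm v i
        rw [← sq_abs]
        exact pow_le_pow_left₀ (abs_nonneg _) h1 2
    _ = _ := by simp

lemma nx_le_card {P Q : Type} [Fintype P] [Fintype Q] (x : (P → ℝ) × (Q → ℝ)) :
    nx x ≤ (Fintype.card P + Fintype.card Q) * ‖x‖ ^ 2 := by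
  unfold nx
  have h1 := n2_le_card x.1
  have h2 := n2_le_card x.2
  have h3 : ‖x.1‖ ^ 2 ≤ ‖x‖ ^ 2 := pow_le_pow_left₀ (norm_nonneg _) (norm_fst_le x) 2
  have h4 : ‖x.2‖ ^ 2 ≤ ‖x‖ ^ 2 := pow_le_pow_left₀ (norm_nonneg _) (norm_snd_le x) 2
  have h5 : (0 : ℝ) ≤ Fintype.card P := Nat.cast_nonneg _
  have h6 : (0 : ℝ) ≤ Fintype.card Q := Nat.cast_nonneg _
  have := mul_le_mul_of_nonneg_left h3 h5
  have := mul_le_mul_of_nonneg_left h4 h6
  nlinarith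

lemma n2_conv {ι : Type} [Fintype ι] (x y : ι → ℝ) {a b : ℝ} (ha : 0 ≤ a) (hb : 0 ≤ b)
    (hab : a + b = 1) : n2 (a • x + b • y) ≤ a * n2 x + b * n2 y := by
  unfold n2
  rw [Finset.mul_sum, Finset.mul_sum, ← Finset.sum_add_distrib]
  apply Finset.sum_le_sum
  intro i _
  simp only [Pi.add_apply, Pi.smul_apply, smul_eq_mul]
  have : a * x i ^ 2 + b * y i ^ 2 - (a * x i + b * y i) ^ 2 = a * b * (x i - y i) ^ 2 := by
    have hb' : b = 1 - a := by linarith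
    subst hb'; ring
  have h2 : 0 ≤ a * b * (x i - y i) ^ 2 := by positivity
  linarith

lemma nx_conv {P Q : Type} [Fintype P] [Fintype Q] (x y : (P → ℝ) × (Q → ℝ)) {a b : ℝ}
    (ha : 0 ≤ a) (hb : 0 ≤ b) (hab : a + b = 1) : nx (a • x + b • y) ≤ a * nx x + b * nx y := by
  have h1 := n2_conv x.1 y.1 ha hb hab
  have h2 := n2_conv x.2 y.2 ha hb hab
  unfold nx
  have e1 : (a • x + b • y).1 = a • x.1 + b • y.1 := rfl
  have e2 : (a • x + b • y).2 = a • x.2 + b • y.2 := rfl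
  rw [e1, e2]
  nlinarith

lemma convex_le {P Q : Type} [Fintype P] [Fintype Q] (c : ℝ) :
    Convex ℝ {x : (P → ℝ) × (Q → ℝ) | nx x ≤ c} := by
  intro x hx y hy a b ha hb hab
  have hx' : nx x ≤ c := hx
  have hy' : nx y ≤ c := hy
  have h := nx_conv x y ha hb hab
  change nx (a • x + b • y) ≤ c
  have h1 := mul_le_mul_of_nonneg_left hx' ha
  have h2 := mul_le_mul_of_nonneg_left hy' hb
  calc nx (a • x + b • y) ≤ a * nx x + b * nx y := h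
    _ ≤ a * c + b * c := add_le_add h1 h2
    _ = c := by rw [← add_mul, hab, one_mul]

lemma convex_lt {P Q : Type} [Fintype P] [Fintype Q] (c : ℝ) :
    Convex ℝ {x : (P → ℝ) × (Q → ℝ) | nx x < c} := by
  intro x hx y hy a b ha hb hab
  have hx' : nx x < c := hx
  have hy' : nx y < c := hy
  have h := nx_conv x y ha hb hab
  change nx (a • x + b • y) < c
  have hm : nx (a • x + b • y) ≤ max (nx x) (nx y) := by
    have h1 := mul_le_mul_of_nonneg_left (le_max_left (nx x) (nx y)) ha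
    have h2 := mul_le_mul_of_nonneg_left (le_max_right (nx x) (nx y)) hb
    calc nx (a • x + b • y) ≤ a * nx x + b * nx y := h
      _ ≤ a * max (nx x) (nx y) + b * max (nx x) (nx y) := add_le_add h1 h2
      _ = max (nx x) (nx y) := by rw [← add_mul, hab, one_mul]
  exact lt_of_le_of_lt hm (max_lt hx' hy')

/-- iterated derivatives of maps to products -/
lemma iter_pi {E : Type} [NormedAddCommGroup E] [NormedSpace ℝ E] {S : Type} [Fintype S]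
    {H : S → Type} [∀ s, NormedAddCommGroup (H s)] [∀ s, NormedSpace ℝ (H s)]
    (u : E → ∀ s, H s) (hu : ContDiff ℝ ∞ u) (k : ℕ) (x : E) (C : ℝ) (hC : 0 ≤ C)
    (h : ∀ s, ‖iteratedFDeriv ℝ k (fun y => u y s) x‖ ≤ C) : ‖iteratedFDeriv ℝ k u x‖ ≤ C := by
  apply ContinuousMultilinearMap.opNorm_le_bound hC
  intro m
  have hp : 0 ≤ C * ∏ i, ‖m i‖ := mul_nonneg hC (Finset.prod_nonneg fun i _ => norm_nonneg _)
  rw [pi_norm_le_iff_of_nonneg hp]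
  intro s
  have h1 := (ContinuousLinearMap.proj (R := ℝ) (φ := H) s).iteratedFDeriv_comp_left
    (f := u) (x := x) (i := k) (hu.contDiffAt) (by exact_mod_cast le_top)
  have h2 : iteratedFDeriv ℝ k (fun y => u y s) x m = (iteratedFDeriv ℝ k u x m) s := by
    have := DFunLike.congr_fun h1 m
    exact this
  rw [← h2]
  exact (ContinuousMultilinearMap.le_opNorm _ m).trans
    (mul_le_mul_of_nonneg_right (h s) (Finset.prod_nonneg fun i _ => norm_nonneg _))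

/-- components of a map to a product -/
lemma iter_comp {E : Type} [NormedAddCommGroup E] [NormedSpace ℝ E] {S : Type} [Fintype S]
    {H : S → Type} [∀ s, NormedAddCommGroup (H s)] [∀ s, NormedSpace ℝ (H s)]
    (u : E → ∀ s, H s) (hu : ContDiff ℝ ∞ u) (k : ℕ) (x : E) (s : S) :
    ‖iteratedFDeriv ℝ k (fun y => u y s) x‖ ≤ ‖iteratedFDeriv ℝ k u x‖ := by
  have h1 := (ContinuousLinearMap.proj (R := ℝ) (φ := H) s).norm_iteratedFDeriv_comp_left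
    (f := u) (x := x) (n := k) (hu.contDiffAt) (by exact_mod_cast le_top)
  have h2 : ‖(ContinuousLinearMap.proj (R := ℝ) (φ := H) s)‖ ≤ 1 := by
    apply ContinuousLinearMap.opNorm_le_bound _ zero_le_one
    intro v
    rw [one_mul]
    exact norm_le_pi_norm v s
  refine h1.trans ?_
  calc _ ≤ 1 * ‖iteratedFDeriv ℝ k u x‖ := mul_le_mul_of_nonneg_right h2 (norm_nonneg _)
    _ = _ := one_mul _

/-- bounds on a ball of matrices -/
lemma lg_bound {N n : ℕ} (lg : Mt N → (Fin n → ℝ)) (hs : ContDiff ℝ ∞ lg) (R : ℝ) :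
    ∃ b : ℝ, 1 ≤ b ∧ ∀ M : Mt N, ‖M‖ ≤ R → ∀ k : ℕ, k ≤ 2 → ‖iteratedFDeriv ℝ k lg M‖ ≤ b := by
  have hc : IsCompact (Metric.closedBall (0 : Mt N) R) := isCompact_closedBall _ _
  have h : ∀ k : ℕ, ∃ b : ℝ, ∀ M ∈ Metric.closedBall (0 : Mt N) R,
      ‖iteratedFDeriv ℝ k lg M‖ ≤ b := by
    intro k
    have hk : Continuous (fun M => iteratedFDeriv ℝ k lg M) :=
      hs.continuous_iteratedFDeriv (by exact_mod_cast le_top)
    exact hc.exists_bound_of_continuousOn hk.continuousOn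
  choose b hb using h
  refine ⟨max 1 (max (b 0) (max (b 1) (b 2))), le_max_left _ _, ?_⟩
  intro M hM k hk
  have hM' : M ∈ Metric.closedBall (0 : Mt N) R := by simpa using hM
  have h1 := hb k M hM'
  interval_cases k
  · exact h1.trans (le_max_of_le_right (le_max_left _ _))
  · exact h1.trans (le_max_of_le_right (le_max_of_le_right (le_max_left _ _)))
  · exact h1.trans (le_max_of_le_right (le_max_of_le_right (le_max_right _ _)))

lemma norm_mt {N : ℕ} {G : Subgroup (UU N)} (g : G) : ‖mt g‖ ≤ Real.sqrt N := by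
  apply Real.le_sqrt_of_sq_le
  rw [← fro2_eq]
  unfold fro2
  rw [mt_unit', trace_one]
  simp

/-! ### the map -/

section
variable {N n D l : ℕ} {G : Subgroup (UU N)} [NeZero l] {B : LieBasis G n}

/-- The logarithm of the chart in the tree gauge. -/
def ul (lg : Mt N → (Fin n → ℝ)) (dc : Dec B D l)
    (x : (Fin D × Fin n → ℝ) × (Fin dc.M → ℝ)) : NT D l × Fin n → ℝ :=
  fun q => lg (mt (dc.th x q.1)) q.2

/-- The properties of the map `ul` with a constant `Λ`. -/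
structure UL (lg : Mt N → (Fin n → ℝ)) (ε r₀ : ℝ) (dc : Dec B D l) (Λ : ℝ) : Prop where
  one : 1 ≤ Λ
  cardP : (Fintype.card (Fin D × Fin n) : ℝ) ≤ Λ
  cardQ : (Fintype.card (Fin dc.M) : ℝ) ≤ Λ
  cardS : (Fintype.card (NT D l) : ℝ) ≤ Λ
  card : Fintype.card (Fin D × Fin n) + Fintype.card (Fin dc.M) =
    Fintype.card (NT D l × Fin n)
  sm : ContDiff ℝ ∞ (ul lg dc)
  dm : ∀ x, nx x < Λ⁻¹ ^ 2 → ∀ e, dc.th x e ∈ dom lg ε r₀
  d1 : ∀ x, nx x ≤ 1 → ‖fderiv ℝ (ul lg dc) x‖ ≤ Λ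
  d2 : ∀ x, nx x ≤ 1 → ‖iteratedFDeriv ℝ 2 (ul lg dc) x‖ ≤ Λ
  inj : ∀ x y, nx x < Λ⁻¹ ^ 2 → nx y < Λ⁻¹ ^ 2 →
    nx (x - y) ≤ Λ ^ 2 * n2 (ul lg dc x - ul lg dc y)
  nd : ∀ x, nx x < Λ⁻¹ ^ 2 → ∀ v, nx v ≤ Λ ^ 2 * n2 (fderiv ℝ (ul lg dc) x v)
  opn : ∀ ρ : ℝ, 0 < ρ → ρ ≤ Λ⁻¹ → IsOpen (ul lg dc '' {x | nx x < ρ ^ 2})
  bal : ∀ ρ : ℝ, 0 < ρ → ρ ≤ Λ⁻¹ → ∀ y, n2 y < (Λ⁻¹ * ρ) ^ 2 →
    y ∈ ul lg dc '' {x | nx x < ρ ^ 2}
  inv : ∃ Ξ : (NT D l × Fin n → ℝ) → (Fin D × Fin n → ℝ) × (Fin dc.M → ℝ), ContDiff ℝ ∞ Ξ ∧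
    ∀ x, nx x < Λ⁻¹ ^ 2 → Ξ (ul lg dc x) = x

lemma card_eq (h6 : S_CARD) (dc : Dec B D l) :
    Fintype.card (Fin D × Fin n) + Fintype.card (Fin dc.M) = Fintype.card (NT D l × Fin n) := by
  have h1 := h6 D l
  have h2 := dc.card
  simp only [Fintype.card_prod, Fintype.card_fin]
  have h3 : (Fintype.card (NT D l) + l ^ D) * n = (D * l ^ D + 1) * n := by rw [h1]
  nlinarith

lemma card_NT (h6 : S_CARD) : (Fintype.card (NT D l) : ℝ) ≤ D * (l : ℝ) ^ D + 1 := by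
  have h1 := h6 D l
  have h2 : ((Fintype.card (NT D l) + l ^ D : ℕ) : ℝ) = ((D * l ^ D + 1 : ℕ) : ℝ) := by rw [h1]
  push_cast at h2
  have h3 : (0 : ℝ) ≤ (l : ℝ) ^ D := by positivity
  linarith

lemma ul_smooth {lg : Mt N → (Fin n → ℝ)} (hs : ContDiff ℝ ∞ lg) (dc : Dec B D l)
    (hF : ContDiff ℝ ∞ (fun x (e : NT D l) => mt (dc.th x e))) : ContDiff ℝ ∞ (ul lg dc) := by
  apply contDiff_pi.2
  intro q
  have h1 : ContDiff ℝ ∞ (fun x => lg (mt (dc.th x q.1))) := hs.comp (contDiff_pi.1 hF q.1)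
  exact contDiff_pi.1 h1 q.2

lemma ul_iter {lg : Mt N → (Fin n → ℝ)} (hs : ContDiff ℝ ∞ lg) (dc : Dec B D l)
    (hF : ContDiff ℝ ∞ (fun x (e : NT D l) => mt (dc.th x e))) {b K : ℝ} (hb : 1 ≤ b)
    (hK : 1 ≤ K)
    (hlg : ∀ M : Mt N, ‖M‖ ≤ Real.sqrt N → ∀ k : ℕ, k ≤ 2 → ‖iteratedFDeriv ℝ k lg M‖ ≤ b)
    (x : (Fin D × Fin n → ℝ) × (Fin dc.M → ℝ))
    (hx : ∀ k : ℕ, 1 ≤ k → k ≤ 2 →
      ‖iteratedFDeriv ℝ k (fun x (e : NT D l) => mt (dc.th x e)) x‖ ≤ K) (k : ℕ)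
    (hk2 : k ≤ 2) : ‖iteratedFDeriv ℝ k (ul lg dc) x‖ ≤ 2 * b * K ^ 2 := by
  apply iter_pi _ (ul_smooth hs dc hF) k x _ (by positivity)
  intro q
  have h1 : ContDiff ℝ ∞ (fun x => lg (mt (dc.th x q.1))) := hs.comp (contDiff_pi.1 hF q.1)
  have h2 := iter_comp (fun x => lg (mt (dc.th x q.1))) h1 k x q.2
  refine h2.trans ?_
  have h3 : ‖iteratedFDeriv ℝ k (lg ∘ fun x => mt (dc.th x q.1)) x‖ ≤ k.factorial * b * K ^ k := by
    apply norm_iteratedFDeriv_comp_le (N := ∞) hs (contDiff_pi.1 hF q.1)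
      (by exact_mod_cast le_top) x
    · intro i hi
      exact hlg _ (norm_mt _) i (hi.trans hk2)
    · intro i hi1 hi2
      have h4 := iter_comp (fun x (e : NT D l) => mt (dc.th x e)) hF i x q.1
      have h5 := hx i hi1 (hi2.trans hk2)
      refine h4.trans (h5.trans ?_)
      calc K = K ^ 1 := (pow_one K).symm
        _ ≤ K ^ i := pow_le_pow_right₀ hK hi1
  refine h3.trans ?_
  have h6 : (k.factorial : ℝ) ≤ 2 := by
    have : k.factorial ≤ Nat.factorial 2 := Nat.factorial_le hk2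
    have h7 : Nat.factorial 2 = 2 := rfl
    rw [h7] at this
    exact_mod_cast this
  have h8 : K ^ k ≤ K ^ 2 := pow_le_pow_right₀ hK hk2
  have h9 : (0 : ℝ) ≤ K ^ k := by positivity
  calc (k.factorial : ℝ) * b * K ^ k ≤ 2 * b * K ^ k := by
        apply mul_le_mul_of_nonneg_right _ h9
        exact mul_le_mul_of_nonneg_right h6 (by linarith)
    _ ≤ 2 * b * K ^ 2 := mul_le_mul_of_nonneg_left h8 (by linarith)

/-- mean value -/
lemma mvt {E : Type} [NormedAddCommGroup E] [NormedSpace ℝ E] {P Q : Type} [Fintype P]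
    [Fintype Q] {f : (P → ℝ) × (Q → ℝ) → E} (hf : ContDiff ℝ ∞ f) {c K : ℝ}
    (h : ∀ x, nx x ≤ c → ‖fderiv ℝ f x‖ ≤ K) (x y : (P → ℝ) × (Q → ℝ)) (hx : nx x ≤ c)
    (hy : nx y ≤ c) : ‖f y - f x‖ ≤ K * ‖y - x‖ := by
  apply (convex_le c).norm_image_sub_le_of_norm_fderiv_le (𝕜 := ℝ) (f := f) _ (fun z hz => h z hz)
    hx hy
  intro z _
  exact (hf.differentiable (by simp)) z

/-- mean value, with the first iterated derivative -/
lemma mvt1 {E : Type} [NormedAddCommGroup E] [NormedSpace ℝ E] {P Q : Type} [Fintype P]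
    [Fintype Q] {f : (P → ℝ) × (Q → ℝ) → E} (hf : ContDiff ℝ ∞ f) {c K : ℝ}
    (h : ∀ x, nx x ≤ c → ‖iteratedFDeriv ℝ 1 f x‖ ≤ K) (x y : (P → ℝ) × (Q → ℝ))
    (hx : nx x ≤ c) (hy : nx y ≤ c) : ‖f y - f x‖ ≤ K * ‖y - x‖ := by
  apply mvt hf _ x y hx hy
  intro z hz
  rw [← norm_iteratedFDeriv_one]
  exact h z hz

lemma nd0 (h1 : S_EXPG) (hG : IsClosed (G : Set (UU N))) {lg : Mt N → (Fin n → ℝ)} {ε r₀ : ℝ}
    (hE : ExpChart B lg ε r₀) (dc : Dec B D l) (hth0 : dc.th 0 = (fun _ => 1))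
    (hF : ContDiff ℝ ∞ (fun x (e : NT D l) => mt (dc.th x e)))
    (v : (Fin D × Fin n → ℝ) × (Fin dc.M → ℝ)) :
    ∑ e : NT D l,
      ‖fderiv ℝ (fun x (e : NT D l) => Pool.Agent.Q77.LU.mt (dc.th x e)) 0 v e‖ ^ 2 =
      n2 (fderiv ℝ (ul lg dc) 0 v) := by
  have hus := ul_smooth hE.smooth dc hF
  have hud : Differentiable ℝ (ul lg dc) := hus.differentiable (by simp)
  have hFc : ∀ e : NT D l, Continuous (fun x => mt (dc.th x e)) := fun e =>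
    (contDiff_pi.1 hF e).continuous
  have hnear : ∀ᶠ x in 𝓝 (0 : (Fin D × Fin n → ℝ) × (Fin dc.M → ℝ)),
      ∀ e : NT D l, ‖mt (dc.th x e) - 1‖ < ε := by
    rw [Filter.eventually_all]
    intro e
    have hc : Continuous (fun x => ‖mt (dc.th x e) - 1‖) := ((hFc e).sub continuous_const).norm
    apply hc.continuousAt.eventually_lt continuousAt_const
    rw [hth0, mt_one, sub_self, norm_zero]
    exact hE.ε_pos
  -- the coordinates with values in `Fin n → ℝ`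
  set y : (Fin D × Fin n → ℝ) × (Fin dc.M → ℝ) → (NT D l → Fin n → ℝ) :=
    fun x e => lg (mt (dc.th x e)) with hy
  have hys : ContDiff ℝ ∞ y := by
    apply contDiff_pi.2
    intro e
    exact hE.smooth.comp (contDiff_pi.1 hF e)
  have hyd : Differentiable ℝ y := hys.differentiable (by simp)
  have hlg1 : lg 1 = 0 := by
    have h5 := hE.lg_eG 0 (by
      rw [Pool.Agent.Q84.LU.HAARM.n2_zero]; have := hE.r_pos; positivity)
    rwa [mt_eG h1 hG, lin_zero, NormedSpace.exp_zero] at h5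
  have hy0 : ∀ e, y 0 e = 0 := by
    intro e
    change lg (mt (dc.th 0 e)) = 0
    rw [hth0, mt_one, hlg1]
  have heq : (fun x (e : NT D l) => mt (dc.th x e)) =ᶠ[𝓝 0]
      fun x (e : NT D l) => NormedSpace.exp (Pool.Agent.Q84.LU.HAARM.linL B (y x e)) := by
    filter_upwards [hnear] with x hx
    funext e
    rw [Pool.Agent.Q84.LU.HAARM.linL_apply, ← mt_eG h1 hG]
    congr 1
    exact (hE.eG_lg _ (hx e)).symm
  have hcomp : ∀ e : NT D l, HasFDerivAt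
      (fun x => NormedSpace.exp (Pool.Agent.Q84.LU.HAARM.linL B (y x e)))
      (((1 : Mt N →L[ℝ] Mt N).comp (Pool.Agent.Q84.LU.HAARM.linL B)).comp
          ((ContinuousLinearMap.proj (R := ℝ) (φ := fun _ : NT D l => Fin n → ℝ) e).comp
            (fderiv ℝ y 0))) 0 := by
    intro e
    have a1 : HasFDerivAt (fun x => y x e)
        ((ContinuousLinearMap.proj (R := ℝ) (φ := fun _ : NT D l => Fin n → ℝ) e).comp
            (fderiv ℝ y 0)) 0 :=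
      (ContinuousLinearMap.proj (R := ℝ) (φ := fun _ : NT D l => Fin n → ℝ) e).hasFDerivAt.comp 0
        (hyd 0).hasFDerivAt
    have a2 : HasFDerivAt (NormedSpace.exp : Mt N → Mt N) (1 : Mt N →L[ℝ] Mt N)
        (Pool.Agent.Q84.LU.HAARM.linL B (y 0 e)) := by
      rw [hy0 e, map_zero]
      exact hasFDerivAt_exp_zero
    have a3 : HasFDerivAt (fun w => NormedSpace.exp (Pool.Agent.Q84.LU.HAARM.linL B w))
        ((1 : Mt N →L[ℝ] Mt N).comp (Pool.Agent.Q84.LU.HAARM.linL B)) (y 0 e) :=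
      a2.comp (y 0 e) (Pool.Agent.Q84.LU.HAARM.linL B).hasFDerivAt
    exact a3.comp 0 a1
  have hFd := (hasFDerivAt_pi.2 hcomp).congr_of_eventuallyEq heq
  have h6 := DFunLike.congr_fun hFd.fderiv v
  have h7 : ∀ e : NT D l,
      fderiv ℝ (fun x (e : NT D l) => Pool.Agent.Q77.LU.mt (dc.th x e)) 0 v e =
      lin B ((fderiv ℝ y 0) v e) := by
    intro e
    refine (congrFun h6 e).trans ?_
    change Pool.Agent.Q84.LU.HAARM.linL B ((fderiv ℝ y 0) v e) = _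
    rw [Pool.Agent.Q84.LU.HAARM.linL_apply]
  have h8 : ∀ q : NT D l × Fin n, fderiv ℝ (ul lg dc) 0 v q = fderiv ℝ y 0 v q.1 q.2 := by
    intro q
    have a1 : HasFDerivAt (fun x => ul lg dc x q)
        ((ContinuousLinearMap.proj (R := ℝ) (φ := fun _ : NT D l × Fin n => ℝ) q).comp
            (fderiv ℝ (ul lg dc) 0)) 0 :=
      (ContinuousLinearMap.proj (R := ℝ) (φ := fun _ : NT D l × Fin n => ℝ) q).hasFDerivAt.comp 0
        (hud 0).hasFDerivAt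
    have a2 : HasFDerivAt (fun x => y x q.1 q.2)
        ((ContinuousLinearMap.proj (R := ℝ) (φ := fun _ : Fin n => ℝ) q.2).comp
          ((ContinuousLinearMap.proj (R := ℝ) (φ := fun _ : NT D l => Fin n → ℝ) q.1).comp
            (fderiv ℝ y 0))) 0 := by
      have a3 : HasFDerivAt (fun x => y x q.1)
        ((ContinuousLinearMap.proj (R := ℝ) (φ := fun _ : NT D l => Fin n → ℝ) q.1).comp
            (fderiv ℝ y 0)) 0 :=
        (ContinuousLinearMap.proj (R := ℝ) (φ := fun _ : NT D l => Fin n → ℝ) q.1).hasFDerivAt.comp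
          0 (hyd 0).hasFDerivAt
      exact (ContinuousLinearMap.proj (R := ℝ) (φ := fun _ : Fin n => ℝ) q.2).hasFDerivAt.comp 0 a3
    have h9 := DFunLike.congr_fun (a1.unique a2) v
    exact h9
  unfold n2
  rw [Fintype.sum_prod_type]
  apply Finset.sum_congr rfl
  intro e _
  rw [h7 e, ← fro2_eq, fro2_lin]
  unfold n2
  apply Finset.sum_congr rfl
  intro a _
  rw [h8 (e, a)]

/-- The properties of `ul` from bounds of the derivatives of the chart. -/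
lemma ul_of_bounds (h1 : S_EXPG) (h6 : S_CARD) (hG : IsClosed (G : Set (UU N)))
    {lg : Mt N → (Fin n → ℝ)} {ε r₀ : ℝ} (hE : ExpChart B lg ε r₀)
    (dc : Dec B D l) (hth0 : dc.th 0 = (fun _ => 1))
    (hF : ContDiff ℝ ∞ (fun x (e : NT D l) => Pool.Agent.Q77.LU.mt (dc.th x e)))
    (K Λ CQ : ℝ) (pQ : ℕ) (hCQ : 1 ≤ CQ) (hK : 1 ≤ K)
    (hlg : ∀ M : Mt N, ‖M‖ ≤ Real.sqrt N → ∀ k : ℕ, k ≤ 2 → ‖iteratedFDeriv ℝ k lg M‖ ≤ K)
    (hx0 : ∀ v, nx v ≤ ∑ e : NT D l,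
      ‖fderiv ℝ (fun x (e : NT D l) => Pool.Agent.Q77.LU.mt (dc.th x e)) 0 v e‖ ^ 2)
    (hx : ∀ x, nx x ≤ 1 → ∀ k : ℕ, 1 ≤ k → k ≤ 2 →
      ‖iteratedFDeriv ℝ k (fun x (e : NT D l) => Pool.Agent.Q77.LU.mt (dc.th x e)) x‖ ≤ K)
    (hP : (Fintype.card (Fin D × Fin n) : ℝ) ≤ K) (hQ : (Fintype.card (Fin dc.M) : ℝ) ≤ K)
    (hS : (Fintype.card (NT D l) : ℝ) ≤ K) (hn : (n : ℝ) ≤ K) (hε : ε⁻¹ ≤ K) (hr₀ : r₀⁻¹ ≤ K)
    (hΛ : Λ = 4 * CQ * (2 * K ^ 3) ^ pQ * K ^ 5)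
    (hQIF : ∀ (u : (Fin D × Fin n → ℝ) × (Fin dc.M → ℝ) → (NT D l × Fin n → ℝ)) (Λ r : ℝ),
      1 ≤ Λ → (Fintype.card (Fin D × Fin n) : ℝ) ≤ Λ → (Fintype.card (Fin dc.M) : ℝ) ≤ Λ →
      Fintype.card (Fin D × Fin n) + Fintype.card (Fin dc.M) = Fintype.card (NT D l × Fin n) →
      ContDiff ℝ ∞ u → u 0 = 0 →
      (∀ v, nx v ≤ Λ ^ 2 * n2 (fderiv ℝ u 0 v)) →
      (∀ x, nx x ≤ Λ⁻¹ ^ 2 → ‖iteratedFDeriv ℝ 2 u x‖ ≤ Λ) → r = (CQ * Λ ^ pQ)⁻¹ →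
      (∀ x y, nx x < r ^ 2 → nx y < r ^ 2 → nx (x - y) ≤ 4 * Λ ^ 2 * n2 (u x - u y)) ∧
      (∀ x, nx x < r ^ 2 → ∀ v, nx v ≤ 4 * Λ ^ 2 * n2 (fderiv ℝ u x v)) ∧
      (∀ ρ : ℝ, 0 < ρ → ρ ≤ r → IsOpen (u '' {x | nx x < ρ ^ 2}) ∧
        ∀ y : NT D l × Fin n → ℝ, n2 y < (r * ρ) ^ 2 → y ∈ u '' {x | nx x < ρ ^ 2}) ∧
      ∃ Ξ : (NT D l × Fin n → ℝ) → (Fin D × Fin n → ℝ) × (Fin dc.M → ℝ),
        ContDiff ℝ ∞ Ξ ∧ ∀ x, nx x < r ^ 2 → Ξ (u x) = x) :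
    UL lg ε r₀ dc Λ := by
  have hus := ul_smooth hE.smooth dc hF
  have hK0 : (0 : ℝ) < K := by linarith
  have hKK : ∀ k : ℕ, 1 ≤ K ^ k := fun k => one_le_pow₀ hK
  have hu12 : ∀ x, nx x ≤ 1 → ∀ k : ℕ, 1 ≤ k → k ≤ 2 →
      ‖iteratedFDeriv ℝ k (ul lg dc) x‖ ≤ 2 * K ^ 3 := by
    intro x hx' k hk1 hk2
    have h := ul_iter hE.smooth dc hF hK hK hlg x (hx x hx') k hk2
    calc _ ≤ 2 * K * K ^ 2 := h
      _ = 2 * K ^ 3 := by ring
  set Λ₁ : ℝ := 2 * K ^ 3 with hΛ₁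
  have hΛ₁1 : 1 ≤ Λ₁ := by have := hKK 3; linarith
  have hKΛ₁ : K ≤ Λ₁ := by
    have : K ≤ K ^ 3 := by
      calc K = K ^ 1 := (pow_one K).symm
        _ ≤ K ^ 3 := pow_le_pow_right₀ hK (by norm_num)
    linarith
  have hpw : 1 ≤ Λ₁ ^ pQ := one_le_pow₀ hΛ₁1
  have hCp : 1 ≤ CQ * Λ₁ ^ pQ := by
    calc (1 : ℝ) = 1 * 1 := (one_mul 1).symm
      _ ≤ CQ * Λ₁ ^ pQ := mul_le_mul hCQ hpw zero_le_one (by linarith)
  have hΛe : Λ = (CQ * Λ₁ ^ pQ) * (4 * K ^ 5) := by rw [hΛ]; ring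
  have hΛa : 4 * K ^ 5 ≤ Λ := by
    rw [hΛe]
    have : (0 : ℝ) ≤ 4 * K ^ 5 := by positivity
    nlinarith
  have hΛb : CQ * Λ₁ ^ pQ ≤ Λ := by
    rw [hΛe]
    have h5 := hKK 5
    have : (1 : ℝ) ≤ 4 * K ^ 5 := by linarith
    nlinarith
  have hpow : ∀ k : ℕ, k ≤ 5 → K ^ k ≤ K ^ 5 := fun k hk => pow_le_pow_right₀ hK hk
  have hΛc : 2 * Λ₁ ≤ Λ := by
    have := hpow 3 (by norm_num)
    linarith
  have hΛ1 : 1 ≤ Λ := by linarith
  have hKΛ : K ≤ Λ := by linarith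
  have hΛ0 : 0 < Λ := by linarith
  have hinv : Λ⁻¹ ≤ (CQ * Λ₁ ^ pQ)⁻¹ := inv_anti₀ (by linarith) hΛb
  have hinv0 : 0 < Λ⁻¹ := inv_pos.2 hΛ0
  have hinv1 : Λ⁻¹ ≤ 1 := inv_le_one_of_one_le₀ hΛ1
  have hsq1 : Λ⁻¹ ^ 2 ≤ 1 := by nlinarith
  have hsq : Λ⁻¹ ^ 2 ≤ (CQ * Λ₁ ^ pQ)⁻¹ ^ 2 := pow_le_pow_left₀ hinv0.le hinv 2
  -- the value at zero
  have hlg1 : lg 1 = 0 := by
    have h5 := hE.lg_eG 0 (by
      rw [Pool.Agent.Q84.LU.HAARM.n2_zero]; have := hE.r_pos; positivity)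
    rwa [mt_eG h1 hG, lin_zero, NormedSpace.exp_zero] at h5
  have hu0 : ul lg dc 0 = 0 := by
    funext q
    change lg (mt (dc.th 0 q.1)) q.2 = 0
    rw [hth0, mt_one, hlg1]; rfl
  have hcard := card_eq h6 dc
  have hfirst : ∀ v, nx v ≤ Λ₁ ^ 2 * n2 (fderiv ℝ (ul lg dc) 0 v) := by
    intro v
    have h := hx0 v
    rw [nd0 h1 hG hE dc hth0 hF v] at h
    have h2 := n2_nn (fderiv ℝ (ul lg dc) 0 v)
    have h3 : 1 ≤ Λ₁ ^ 2 := one_le_pow₀ hΛ₁1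
    nlinarith
  obtain ⟨q1, q2, q3, q4⟩ := hQIF (ul lg dc) Λ₁ _ hΛ₁1 (hP.trans hKΛ₁) (hQ.trans hKΛ₁) hcard hus
    hu0 hfirst (by
      intro x hx'
      apply hu12 x _ 2 (by norm_num) le_rfl
      refine hx'.trans ?_
      have : Λ₁⁻¹ ≤ 1 := inv_le_one_of_one_le₀ hΛ₁1
      have h0 : 0 ≤ Λ₁⁻¹ := inv_nonneg.2 (by linarith)
      nlinarith) rfl
  have hfd1 : ∀ x, nx x ≤ 1 → ‖fderiv ℝ (ul lg dc) x‖ ≤ Λ₁ := by
    intro x hx'
    rw [← norm_iteratedFDeriv_one]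
    exact hu12 x hx' 1 le_rfl (by norm_num)
  have h4Λ : 4 * Λ₁ ^ 2 ≤ Λ ^ 2 := by nlinarith
  have hnorm : ∀ x : (Fin D × Fin n → ℝ) × (Fin dc.M → ℝ), nx x < Λ⁻¹ ^ 2 → ‖x‖ < Λ⁻¹ :=
    fun x hx' => Pool.Agent.Q84.LU.HAARM.nx_ball hinv0 hx'
  have hnx0 : nx (0 : (Fin D × Fin n → ℝ) × (Fin dc.M → ℝ)) ≤ 1 := by
    simp [nx, n2]
  refine ⟨hΛ1, hP.trans hKΛ, hQ.trans hKΛ, hS.trans hKΛ, hcard, hus, ?_, ?_, ?_, ?_, ?_, ?_, ?_, ?_⟩
  · intro x hx' e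
    have hxn := hnorm x hx'
    have hx1 : nx x ≤ 1 := (hx'.le).trans hsq1
    have hxx : ‖x - 0‖ = ‖x‖ := by rw [sub_zero]
    constructor
    · have h := mvt1 hF (fun z hz => hx z hz 1 le_rfl (by norm_num)) 0 x hnx0 hx1
      rw [hxx] at h
      have h2 := norm_le_pi_norm ((fun e : NT D l => Pool.Agent.Q77.LU.mt (dc.th x e)) -
        (fun e : NT D l => Pool.Agent.Q77.LU.mt (dc.th 0 e))) e
      have h3 : Pool.Agent.Q77.LU.mt (dc.th 0 e) = 1 := by rw [hth0, mt_one]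
      rw [Pi.sub_apply, h3] at h2
      refine lt_of_le_of_lt (h2.trans h) ?_
      have hε0 := hE.ε_pos
      have h5 : K * Λ⁻¹ ≤ ε := by
        rw [← div_eq_mul_inv, div_le_iff₀ hΛ0]
        have h6 : 1 ≤ K * ε := by
          have := mul_le_mul_of_nonneg_right hε hε0.le
          rwa [inv_mul_cancel₀ hε0.ne'] at this
        have h7 : K * K ≤ Λ := by
          have := hpow 2 (by norm_num)
          nlinarith
        calc K = K * 1 := (mul_one K).symm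
          _ ≤ K * (K * ε) := mul_le_mul_of_nonneg_left h6 hK0.le
          _ = ε * (K * K) := by ring
          _ ≤ ε * Λ := mul_le_mul_of_nonneg_left h7 hε0.le
      calc K * ‖x‖ < K * Λ⁻¹ := mul_lt_mul_of_pos_left hxn hK0
        _ ≤ ε := h5
    · have h := mvt hus hfd1 0 x hnx0 hx1
      rw [hxx, hu0, sub_zero] at h
      have hr0 := hE.r_pos
      have h2 : n2 (lg (mt (dc.th x e))) ≤ n * (Λ₁ * ‖x‖) ^ 2 := by
        have h3 := n2_le_card (lg (mt (dc.th x e)))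
        have h4 : ‖lg (mt (dc.th x e))‖ ≤ Λ₁ * ‖x‖ := by
          rw [pi_norm_le_iff_of_nonneg (by positivity)]
          intro a
          exact (norm_le_pi_norm (ul lg dc x) (e, a)).trans h
        have h5 : ‖lg (mt (dc.th x e))‖ ^ 2 ≤ (Λ₁ * ‖x‖) ^ 2 :=
          pow_le_pow_left₀ (norm_nonneg _) h4 2
        rw [Fintype.card_fin] at h3
        exact h3.trans (mul_le_mul_of_nonneg_left h5 (Nat.cast_nonneg _))
      have h3 : (n : ℝ) * (Λ₁ * ‖x‖) ^ 2 ≤ K * (Λ₁ * ‖x‖) ^ 2 :=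
        mul_le_mul_of_nonneg_right hn (sq_nonneg _)
      have h4 : K * (Λ₁ * ‖x‖) ^ 2 < r₀ ^ 2 := by
        have h5 : ‖x‖ ^ 2 < Λ⁻¹ ^ 2 := by
          have := norm_nonneg x
          exact pow_lt_pow_left₀ hxn this (by norm_num)
        have h6 : K * Λ₁ ^ 2 * Λ⁻¹ ^ 2 ≤ r₀ ^ 2 := by
          have h7 : 1 ≤ K * r₀ := by
            have := mul_le_mul_of_nonneg_right hr₀ hr0.le
            rwa [inv_mul_cancel₀ hr0.ne'] at this
          have h8 : 1 ≤ (K * r₀) ^ 2 := one_le_pow₀ h7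
          have h9 : K * Λ₁ ^ 2 * K ^ 2 ≤ Λ ^ 2 := by
            have h10 : (4 * K ^ 5) ^ 2 ≤ Λ ^ 2 := pow_le_pow_left₀ (by positivity) hΛa 2
            have h11 : K * Λ₁ ^ 2 * K ^ 2 = 4 * K ^ 9 := by rw [hΛ₁]; ring
            have h12 : K ^ 9 ≤ K ^ 10 := pow_le_pow_right₀ hK (by norm_num)
            have h13 : (4 * K ^ 5) ^ 2 = 16 * K ^ 10 := by ring
            have h14 : 0 < K ^ 9 := by positivity
            rw [h11]; linarith
          rw [inv_pow, ← div_eq_mul_inv, div_le_iff₀ (by positivity)]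
          calc K * Λ₁ ^ 2 = K * Λ₁ ^ 2 * 1 := (mul_one _).symm
            _ ≤ K * Λ₁ ^ 2 * (K * r₀) ^ 2 := mul_le_mul_of_nonneg_left h8 (by positivity)
            _ = r₀ ^ 2 * (K * Λ₁ ^ 2 * K ^ 2) := by ring
            _ ≤ r₀ ^ 2 * Λ ^ 2 := mul_le_mul_of_nonneg_left h9 (by positivity)
        calc K * (Λ₁ * ‖x‖) ^ 2 = K * Λ₁ ^ 2 * ‖x‖ ^ 2 := by ring
          _ < K * Λ₁ ^ 2 * Λ⁻¹ ^ 2 := mul_lt_mul_of_pos_left h5 (by positivity)
          _ ≤ r₀ ^ 2 := h6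
      exact lt_of_le_of_lt (h2.trans h3) h4
  · intro x hx'
    exact (hfd1 x hx').trans (by linarith)
  · intro x hx'
    exact (hu12 x hx' 2 (by norm_num) le_rfl).trans (by linarith)
  · intro x y hx' hy'
    refine (q1 x y (hx'.trans_le hsq) (hy'.trans_le hsq)).trans ?_
    exact mul_le_mul_of_nonneg_right h4Λ (n2_nn _)
  · intro x hx' v
    refine (q2 x (hx'.trans_le hsq) v).trans ?_
    exact mul_le_mul_of_nonneg_right h4Λ (n2_nn _)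
  · intro ρ hρ hρΛ
    exact (q3 ρ hρ (hρΛ.trans hinv)).1
  · intro ρ hρ hρΛ y hy
    apply (q3 ρ hρ (hρΛ.trans hinv)).2
    refine lt_of_lt_of_le hy ?_
    exact pow_le_pow_left₀ (by positivity) (mul_le_mul_of_nonneg_right hinv hρ.le) 2
  · obtain ⟨Ξ, hΞ, hΞ2⟩ := q4
    exact ⟨Ξ, hΞ, fun x hx' => hΞ2 x (hx'.trans_le hsq)⟩

end

lemma pow_id (q c L : ℝ) (t pQ : ℕ) : 4 * q * 2 ^ pQ * c ^ (3 * pQ + 5) * L ^ (t * (3 * pQ + 5)) =
    4 * q * (2 * (c * L ^ t) ^ 3) ^ pQ * (c * L ^ t) ^ 5 := by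
  rw [mul_pow 2, ← pow_mul (c * L ^ t) 3 pQ, pow_mul L t, show 3 * pQ + 5 = 3 * pQ + 5 from rfl]
  rw [show 4 * q * 2 ^ pQ * c ^ (3 * pQ + 5) * (L ^ t) ^ (3 * pQ + 5) =
    4 * q * 2 ^ pQ * (c * L ^ t) ^ (3 * pQ + 5) by rw [mul_pow]; ring, pow_add]
  ring

/-- The properties of the logarithm of the chart with polynomial constants. -/
theorem exists_ul (h1 : S_EXPG) (h3 : S_QIF) (h4 : S_THD) (h5 : S_THDU) (h6 : S_CARD)
    (N n D : ℕ) (G : Subgroup (UU N)) (hG : IsClosed (G : Set (UU N))) (B : LieBasis G n)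
    (lg : Mt N → (Fin n → ℝ)) (ε r₀ : ℝ) (hE : ExpChart B lg ε r₀) :
    ∃ (p : ℕ) (C : ℝ), 1 ≤ C ∧ ∀ (l : ℕ) [NeZero l] (dc : Dec B D l),
      UL lg ε r₀ dc (C * (l : ℝ) ^ p) := by
  obtain ⟨pT, CT, hCT, hT⟩ := h5 N n D G hG B
  obtain ⟨pQ, CQ, hCQ, hQIF⟩ := h3
  obtain ⟨b, hb, hlg⟩ := lg_bound lg hE.smooth (Real.sqrt N)
  have hε0 := hE.ε_pos
  have hr0 := hE.r_pos
  set C₀ : ℝ := CT + b + (D * n + n + D + 1) + ε⁻¹ + r₀⁻¹ with hC₀
  have hDn : (0 : ℝ) ≤ D * n + n + D + 1 := by positivity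
  have hεi : 0 < ε⁻¹ := inv_pos.2 hε0
  have hri : 0 < r₀⁻¹ := inv_pos.2 hr0
  have hC₀1 : 1 ≤ C₀ := by linarith
  refine ⟨(pT + D) * (3 * pQ + 5), 4 * CQ * 2 ^ pQ * C₀ ^ (3 * pQ + 5), ?_, ?_⟩
  · have a1 : 1 ≤ C₀ ^ (3 * pQ + 5) := one_le_pow₀ hC₀1
    have a2 : (1 : ℝ) ≤ 2 ^ pQ := one_le_pow₀ (by norm_num)
    have a3 : 1 ≤ 4 * CQ := by linarith
    calc (1 : ℝ) = 1 * 1 * 1 := by norm_num
      _ ≤ 4 * CQ * 2 ^ pQ * C₀ ^ (3 * pQ + 5) := by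
          apply mul_le_mul (mul_le_mul a3 a2 zero_le_one (by linarith)) a1 zero_le_one
          positivity
  · intro l _ dc
    have hl1 : (1 : ℝ) ≤ (l : ℝ) := by
      exact_mod_cast Nat.one_le_iff_ne_zero.2 (NeZero.ne l)
    have hl0 : (0 : ℝ) < (l : ℝ) := by linarith
    set K : ℝ := C₀ * (l : ℝ) ^ (pT + D) with hK
    have hp : ∀ k : ℕ, k ≤ pT + D → (l : ℝ) ^ k ≤ (l : ℝ) ^ (pT + D) := fun k hk =>
      pow_le_pow_right₀ hl1 hk
    have hdom : ∀ (c : ℝ) (k : ℕ), 0 ≤ c → c ≤ C₀ → k ≤ pT + D → c * (l : ℝ) ^ k ≤ K := by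
      intro c k hc0 hc hk
      exact mul_le_mul hc (hp k hk) (by positivity) (by linarith)
    have hdom0 : ∀ c : ℝ, 0 ≤ c → c ≤ C₀ → c ≤ K := by
      intro c hc0 hc
      have := hdom c 0 hc0 hc (Nat.zero_le _)
      rwa [pow_zero, mul_one] at this
    obtain ⟨t1, t2⟩ := hT l dc
    obtain ⟨s1, s2, s3, s4⟩ := h4 N n D l G hG B dc
    have hn0 : (0 : ℝ) ≤ (n : ℝ) := Nat.cast_nonneg _
    have hD0 : (0 : ℝ) ≤ (D : ℝ) := Nat.cast_nonneg _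
    have hDn0 : (0 : ℝ) ≤ (D : ℝ) * n := by positivity
    apply ul_of_bounds h1 h6 hG hE dc s1 s2 K _ CQ pQ hCQ
    · exact hdom0 1 zero_le_one hC₀1
    · intro M hM k hk
      exact (hlg M hM k hk).trans (hdom0 b (by linarith) (by linarith))
    · exact t1
    · intro x hx k hk1 hk2
      have hT1 : CT * (l : ℝ) ^ pT ≤ K := hdom CT pT (by linarith) (by linarith) (by omega)
      obtain ⟨t3, t4⟩ := t2 x hx
      interval_cases k
      · exact t3.trans hT1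
      · exact t4.trans hT1
    · rw [Fintype.card_prod, Fintype.card_fin, Fintype.card_fin]
      push_cast
      exact hdom0 _ hDn0 (by linarith)
    · rw [Fintype.card_fin]
      have hc := dc.card
      have hc2 : (dc.M : ℝ) + D * n + (l : ℝ) ^ D * n = D * (l : ℝ) ^ D * n + n := by
        exact_mod_cast hc
      have hlD : (1 : ℝ) ≤ (l : ℝ) ^ D := one_le_pow₀ hl1
      have h7 : (dc.M : ℝ) ≤ (D * n + n) * (l : ℝ) ^ D := by
        have e1 : (0 : ℝ) ≤ (l : ℝ) ^ D * n := by positivity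
        have e2 : (n : ℝ) ≤ n * (l : ℝ) ^ D := le_mul_of_one_le_right hn0 hlD
        calc (dc.M : ℝ) ≤ D * (l : ℝ) ^ D * n + n := by linarith
          _ ≤ D * (l : ℝ) ^ D * n + n * (l : ℝ) ^ D := by linarith
          _ = _ := by ring
      exact h7.trans (hdom _ D (by positivity) (by linarith) (by omega))
    · have h7 := card_NT (D := D) (l := l) h6
      have hlD : (1 : ℝ) ≤ (l : ℝ) ^ D := one_le_pow₀ hl1
      have h8 : (D : ℝ) * (l : ℝ) ^ D + 1 ≤ (D + 1) * (l : ℝ) ^ D := by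
        calc (D : ℝ) * (l : ℝ) ^ D + 1 ≤ (D : ℝ) * (l : ℝ) ^ D + (l : ℝ) ^ D := by linarith
          _ = _ := by ring
      exact (h7.trans h8).trans (hdom _ D (by positivity) (by linarith) (by omega))
    · exact hdom0 _ hn0 (by linarith)
    · exact hdom0 _ hεi.le (by linarith)
    · exact hdom0 _ hri.le (by linarith)
    · exact pow_id CQ C₀ l (pT + D) pQ
    · intro u Λ r q1 q2 q3 q4 q5 q6 q7 q8 q9
      exact hQIF (Fin D × Fin n) (Fin dc.M) (NT D l × Fin n) u Λ r q1 q2 q3 q4 q5 q6 q7 q8 q9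

end

end Pool.Agent.Q48.LU
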