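import Mathlib
import Pool.Agent.Q48.LU.ULog

/-!
# Project LU, uniform version: auxiliary lemmas for job HMU
-/

set_option autoImplicit false

namespace Pool.Agent.Q48.LU

open Pool.Agent.Q77.LU
open MeasureTheory Matrix Set Filter Topology
open scoped ContDiff Matrix.Norms.Frobenius ENNReal NNReal
open Pool.Agent.Q84.LU.HAARM (ExpChart dom)

noncomputable section

/-- the determinant is bounded by the power of the norm -/
lemma det_le {E : Type} [NormedAddCommGroup E] [NormedSpace ℝ E] [FiniteDimensional ℝ E]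
    (T : E →L[ℝ] E) : |T.det| ≤ ‖T‖ ^ Module.finrank ℝ E := by
  letI : MeasurableSpace E := borel E
  haveI : BorelSpace E := ⟨rfl⟩
  set μ : Measure E := Measure.addHaar with hμ
  have h1 : μ (T '' Metric.ball (0 : E) 1) = ENNReal.ofReal |T.det| * μ (Metric.ball (0 : E) 1) :=
    Measure.addHaar_image_continuousLinearMap μ T _
  have h2 : T '' Metric.ball (0 : E) 1 ⊆ Metric.closedBall (0 : E) ‖T‖ := by
    rintro _ ⟨x, hx, rfl⟩
    rw [mem_closedBall_zero_iff]
    rw [mem_ball_zero_iff] at hx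
    calc ‖T x‖ ≤ ‖T‖ * ‖x‖ := T.le_opNorm x
      _ ≤ ‖T‖ * 1 := mul_le_mul_of_nonneg_left hx.le (norm_nonneg _)
      _ = ‖T‖ := mul_one _
  have h3 := measure_mono (μ := μ) h2
  rw [h1, Measure.addHaar_closedBall μ 0 (norm_nonneg T)] at h3
  have h4 : μ (Metric.ball (0 : E) 1) ≠ 0 := (Metric.measure_ball_pos μ 0 one_pos).ne'
  have h5 : μ (Metric.ball (0 : E) 1) ≠ ⊤ := measure_ball_lt_top.ne
  have h6 := (ENNReal.mul_le_mul_iff_left h4 h5).1 h3
  exact (ENNReal.ofReal_le_ofReal_iff (by positivity)).1 h6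

/-- gradient from a multiplicative bound -/
lemma grad_le {E : Type} [NormedAddCommGroup E] [NormedSpace ℝ E] (f : E → ℝ) (x : E) (c : ℝ)
    (hc : 0 ≤ c) (hf : DifferentiableAt ℝ f x) (hx : 0 < f x)
    (h : ∀ᶠ y in 𝓝 x, f y ≤ f x * Real.exp (c * ‖y - x‖)) : ‖fderiv ℝ f x‖ ≤ c * f x := by
  have key : ∀ v : E, fderiv ℝ f x v ≤ c * f x * ‖v‖ := by
    intro v
    -- along the line
    have h1 : HasDerivAt (fun t : ℝ => f (x + t • v)) (fderiv ℝ f x v) 0 := by
      have h2 : HasDerivAt (fun t : ℝ => x + t • v) v 0 := by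
        have := ((hasDerivAt_id (0 : ℝ)).smul_const v).const_add x
        simpa using this
      have h3 : HasFDerivAt f (fderiv ℝ f x) (x + (0 : ℝ) • v) := by
        rw [zero_smul, add_zero]; exact hf.hasFDerivAt
      exact h3.comp_hasDerivAt (0 : ℝ) h2
    have h4 : HasDerivAt (fun t : ℝ => f x * Real.exp (c * (t * ‖v‖))) (f x * (c * ‖v‖)) 0 := by
      have h5 : HasDerivAt (fun t : ℝ => c * (t * ‖v‖)) (c * ‖v‖) 0 := by
        have := ((hasDerivAt_id (0 : ℝ)).mul_const ‖v‖).const_mul c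
        simpa using this
      have h6 := (h5.exp).const_mul (f x)
      simpa using h6
    have h7 : HasDerivAt (fun t : ℝ => f x * Real.exp (c * (t * ‖v‖)) - f (x + t • v))
        (f x * (c * ‖v‖) - fderiv ℝ f x v) 0 := h4.sub h1
    have h8 : 0 ≤ f x * (c * ‖v‖) - fderiv ℝ f x v := by
      have h9 := (hasDerivAt_iff_tendsto_slope.1 h7).mono_left
        (nhdsWithin_mono (0 : ℝ) (fun t (ht : t ∈ Ioi (0 : ℝ)) => (ne_of_gt ht : t ≠ 0)))
      apply ge_of_tendsto h9
      have h10 : Tendsto (fun t : ℝ => x + t • v) (𝓝[>] 0) (𝓝 x) := by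
        have h11 : ContinuousAt (fun t : ℝ => x + t • v) 0 := by fun_prop
        have h12 : Tendsto (fun t : ℝ => x + t • v) (𝓝 0) (𝓝 x) := by
          have := h11.tendsto
          simpa using this
        exact h12.mono_left nhdsWithin_le_nhds
      filter_upwards [h10.eventually h, self_mem_nhdsWithin] with t ht ht0
      have ht0' : 0 < t := ht0
      rw [slope_def_field]
      have e1 : f x * Real.exp (c * (0 * ‖v‖)) - f (x + (0 : ℝ) • v) = 0 := by simp
      rw [e1, sub_zero, sub_zero]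
      apply div_nonneg _ ht0'.le
      have e2 : ‖x + t • v - x‖ = t * ‖v‖ := by
        rw [add_sub_cancel_left, norm_smul, Real.norm_eq_abs, abs_of_pos ht0']
      rw [e2] at ht
      linarith
    nlinarith
  apply ContinuousLinearMap.opNorm_le_bound _ (by positivity)
  intro v
  rw [Real.norm_eq_abs, abs_le]
  constructor
  · have := key (-v)
    rw [map_neg, norm_neg] at this
    linarith
  · exact key v

/-- positive smooth functions have Lipschitz logarithm on balls -/
lemma logLip {n : ℕ} (j : (Fin n → ℝ) → ℝ) (hj : ContDiff ℝ ∞ j) (hj0 : ∀ v, 0 < j v) (r : ℝ) :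
    ∃ b : ℝ, 0 ≤ b ∧ ∀ v w : Fin n → ℝ, ‖v‖ ≤ r → ‖w‖ ≤ r →
      j w ≤ j v * Real.exp (b * ‖w - v‖) := by
  have hs : ContDiff ℝ ∞ (fun v => Real.log (j v)) := hj.log (fun v => (hj0 v).ne')
  have hc : Continuous (fun v => fderiv ℝ (fun v => Real.log (j v)) v) :=
    hs.continuous_fderiv (by simp)
  obtain ⟨b, hb⟩ := (isCompact_closedBall (0 : Fin n → ℝ) r).exists_bound_of_continuousOn
    hc.continuousOn
  refine ⟨max b 0, le_max_right _ _, ?_⟩
  intro v w hv hw
  have h1 : ‖Real.log (j w) - Real.log (j v)‖ ≤ max b 0 * ‖w - v‖ := by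
    apply (convex_closedBall (0 : Fin n → ℝ) r).norm_image_sub_le_of_norm_fderiv_le (𝕜 := ℝ)
      (f := fun v => Real.log (j v))
    · intro z _
      exact (hs.differentiable (by simp)) z
    · intro z hz
      exact (hb z hz).trans (le_max_left _ _)
    · simpa using hv
    · simpa using hw
  have h2 : Real.log (j w) ≤ Real.log (j v) + max b 0 * ‖w - v‖ := by
    have := (abs_le.1 h1).2
    linarith
  have h3 := Real.exp_le_exp.2 h2
  rwa [Real.exp_add, Real.exp_log (hj0 w), Real.exp_log (hj0 v)] at h3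

section
variable {P Q : Type} [Fintype P] [DecidableEq P] [Fintype Q] [DecidableEq Q]

lemma grad_card (f : (P → ℝ) × (Q → ℝ) → ℝ) (x : (P → ℝ) × (Q → ℝ)) :
    gC f x + gA f x ≤ (Fintype.card P + Fintype.card Q) * ‖fderiv ℝ f x‖ ^ 2 := by
  have h1 : ∀ i : P, fderiv ℝ f x (Pi.single i 1, 0) ^ 2 ≤ ‖fderiv ℝ f x‖ ^ 2 := by
    intro i
    have h2 := (fderiv ℝ f x).le_opNorm (Pi.single i 1, 0)
    have h3 : ‖((Pi.single i 1, 0) : (P → ℝ) × (Q → ℝ))‖ ≤ 1 := by
      rw [Prod.norm_def]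
      apply max_le
      · rw [pi_norm_le_iff_of_nonneg zero_le_one]
        intro k
        by_cases hk : k = i
        · subst hk; simp
        · simp [Pi.single_eq_of_ne hk]
      · simp
    have h4 : ‖fderiv ℝ f x (Pi.single i 1, 0)‖ ≤ ‖fderiv ℝ f x‖ := by
      refine h2.trans ?_
      calc _ ≤ ‖fderiv ℝ f x‖ * 1 := mul_le_mul_of_nonneg_left h3 (norm_nonneg _)
        _ = _ := mul_one _
    rw [Real.norm_eq_abs] at h4
    rw [← sq_abs]
    exact pow_le_pow_left₀ (abs_nonneg _) h4 2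
  have h1' : ∀ i : Q, fderiv ℝ f x (0, Pi.single i 1) ^ 2 ≤ ‖fderiv ℝ f x‖ ^ 2 := by
    intro i
    have h2 := (fderiv ℝ f x).le_opNorm (0, Pi.single i 1)
    have h3 : ‖((0, Pi.single i 1) : (P → ℝ) × (Q → ℝ))‖ ≤ 1 := by
      rw [Prod.norm_def]
      apply max_le
      · simp
      · rw [pi_norm_le_iff_of_nonneg zero_le_one]
        intro k
        by_cases hk : k = i
        · subst hk; simp
        · simp [Pi.single_eq_of_ne hk]
    have h4 : ‖fderiv ℝ f x (0, Pi.single i 1)‖ ≤ ‖fderiv ℝ f x‖ := by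
      refine h2.trans ?_
      calc _ ≤ ‖fderiv ℝ f x‖ * 1 := mul_le_mul_of_nonneg_left h3 (norm_nonneg _)
        _ = _ := mul_one _
    rw [Real.norm_eq_abs] at h4
    rw [← sq_abs]
    exact pow_le_pow_left₀ (abs_nonneg _) h4 2
  unfold gC gA
  have h5 := Finset.sum_le_sum (fun i (_ : i ∈ Finset.univ) => h1 i)
  have h6 := Finset.sum_le_sum (fun i (_ : i ∈ Finset.univ) => h1' i)
  simp only [Finset.sum_const, Finset.card_univ, nsmul_eq_mul] at h5 h6
  rw [add_mul]
  exact add_le_add h5 h6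

end

end

end Pool.Agent.Q48.LU
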