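import Mathlib
import Pool.Agent.Q48.LU.HMUaux

/-!
# Project LU, uniform version: job HMU (Haar measure in the chart)
-/

set_option autoImplicit false

namespace Pool.Agent.Q48.LU

open Pool.Agent.Q77.LU
open MeasureTheory Matrix Set Filter Topology
open scoped ContDiff Matrix.Norms.Frobenius ENNReal NNReal
open Pool.Agent.Q84.LU.HAARM (ExpChart dom nuM)

noncomputable section

/-- uncurrying -/
def cr (m : Type) [Fintype m] (n : ℕ) : (m × Fin n → ℝ) →L[ℝ] (m → Fin n → ℝ) :=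
  ContinuousLinearMap.pi fun e => ContinuousLinearMap.pi fun a =>
    ContinuousLinearMap.proj (R := ℝ) (φ := fun _ : m × Fin n => ℝ) (e, a)

lemma cr_apply {m : Type} [Fintype m] {n : ℕ} (w : m × Fin n → ℝ) (e : m) (a : Fin n) :
    cr m n w e a = w (e, a) := rfl

lemma cr_inj {m : Type} [Fintype m] {n : ℕ} {v w : m × Fin n → ℝ} (h : cr m n v = cr m n w) :
    v = w := by
  funext q
  exact congrFun (congrFun h q.1) q.2

lemma cr_norm {m : Type} [Fintype m] {n : ℕ} (w : m × Fin n → ℝ) (e : m) :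
    ‖cr m n w e‖ ≤ ‖w‖ := by
  rw [pi_norm_le_iff_of_nonneg (norm_nonneg _)]
  intro a
  exact norm_le_pi_norm w (e, a)

section
variable {N n D l : ℕ} {G : Subgroup (UU N)} [NeZero l] {B : LieBasis G n}

/-- the derivative at a point, as a linear map between spaces of the same dimension -/
def yv (lg : Mt N → (Fin n → ℝ)) (dc : Dec B D l)
    (x : (Fin D × Fin n → ℝ) × (Fin dc.M → ℝ)) : NT D l → Fin n → ℝ :=
  cr (NT D l) n (ul lg dc x)

variable {lg : Mt N → (Fin n → ℝ)} {ε r : ℝ} {dc : Dec B D l} {Λ : ℝ}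

lemma yv_apply (x : (Fin D × Fin n → ℝ) × (Fin dc.M → ℝ)) (e : NT D l) :
    yv lg dc x e = lg (Pool.Agent.Q77.LU.mt (dc.th x e)) := rfl

lemma yv_smooth (U : UL lg ε r dc Λ) : ContDiff ℝ ∞ (yv lg dc) :=
  (cr (NT D l) n).contDiff.comp U.sm

lemma yv_fderiv (U : UL lg ε r dc Λ) (x v : (Fin D × Fin n → ℝ) × (Fin dc.M → ℝ)) :
    fderiv ℝ (yv lg dc) x v = cr (NT D l) n (fderiv ℝ (ul lg dc) x v) := by
  have h1 : HasFDerivAt (ul lg dc) (fderiv ℝ (ul lg dc) x) x :=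
    ((U.sm.differentiable (by simp)) x).hasFDerivAt
  have h2 := (cr (NT D l) n).hasFDerivAt.comp x h1
  have h3 : fderiv ℝ (yv lg dc) x = (cr (NT D l) n).comp (fderiv ℝ (ul lg dc) x) := h2.fderiv
  rw [h3]; rfl

lemma nx_eq_zero {P Q : Type} [Fintype P] [Fintype Q] {v : (P → ℝ) × (Q → ℝ)}
    (h : nx v ≤ 0) : v = 0 := by
  have h1 := nsq_le v
  have h2 : ‖v‖ ^ 2 ≤ 0 := h1.trans h
  have h3 : ‖v‖ = 0 := by
    have := sq_nonneg ‖v‖
    exact pow_eq_zero_iff (n := 2) (by norm_num) |>.1 (le_antisymm h2 this)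
  exact norm_eq_zero.1 h3

lemma yv_inj (U : UL lg ε r dc Λ) (x : (Fin D × Fin n → ℝ) × (Fin dc.M → ℝ))
    (hx : nx x < Λ⁻¹ ^ 2) : ∀ v, fderiv ℝ (yv lg dc) x v = 0 → v = 0 := by
  intro v hv
  rw [yv_fderiv U] at hv
  have h1 : fderiv ℝ (ul lg dc) x v = 0 := cr_inj (by rw [hv, map_zero])
  have h2 := U.nd x hx v
  rw [h1] at h2
  apply nx_eq_zero
  refine h2.trans (le_of_eq ?_)
  simp [n2]

/-- the second derivative as a Lipschitz bound -/
lemma ul_lip2 (U : UL lg ε r dc Λ) (x z : (Fin D × Fin n → ℝ) × (Fin dc.M → ℝ))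
    (hx : nx x ≤ 1) (hz : nx z ≤ 1) :
    ‖fderiv ℝ (ul lg dc) z - fderiv ℝ (ul lg dc) x‖ ≤ Λ * ‖z - x‖ := by
  have hs : ContDiff ℝ ∞ (fun x => fderiv ℝ (ul lg dc) x) := U.sm.fderiv_right (by simp)
  apply mvt1 hs _ x z hx hz
  intro w hw
  have h := U.d2 w hw
  rw [norm_iteratedFDeriv_fderiv]
  exact h

/-- The Jacobian: properties of the determinant. -/
lemma det_props (U : UL lg ε r dc Λ)
    (L : ((Fin D × Fin n → ℝ) × (Fin dc.M → ℝ)) ≃L[ℝ] (NT D l → Fin n → ℝ))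
    (hL : ∀ v, L v = fderiv ℝ (yv lg dc) 0 v)
    (A : ((Fin D × Fin n → ℝ) × (Fin dc.M → ℝ)) →
      (((Fin D × Fin n → ℝ) × (Fin dc.M → ℝ)) →L[ℝ] ((Fin D × Fin n → ℝ) × (Fin dc.M → ℝ))))
    (hA : ∀ x, A x = (L.symm : (NT D l → Fin n → ℝ) →L[ℝ] _).comp (fderiv ℝ (yv lg dc) x)) :
    ContDiff ℝ ∞ (fun x => (A x).det) ∧ (∀ x, nx x < Λ⁻¹ ^ 2 → 0 < (A x).det) ∧
    ∀ x z, nx x < Λ⁻¹ ^ 2 → nx z < Λ⁻¹ ^ 2 →
      (A z).det ≤ (A x).det * Real.exp (4 * Λ ^ 4 * ‖z - x‖) := by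
  classical
  have hy := yv_smooth U
  have hΛ1 := U.one
  have hΛ0 : 0 < Λ := by linarith
  have hfs : ContDiff ℝ ∞ (fun x => fderiv ℝ (yv lg dc) x) := hy.fderiv_right (by simp)
  have hAs : ContDiff ℝ ∞ A := by
    have h5 := ((ContinuousLinearMap.compL ℝ ((Fin D × Fin n → ℝ) × (Fin dc.M → ℝ))
      (NT D l → Fin n → ℝ) ((Fin D × Fin n → ℝ) × (Fin dc.M → ℝ)))
      (L.symm : (NT D l → Fin n → ℝ) →L[ℝ] ((Fin D × Fin n → ℝ) × (Fin dc.M → ℝ)))).contDiff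
      (n := ∞)
    have h6 : A = fun x => (L.symm : (NT D l → Fin n → ℝ) →L[ℝ] _).comp
      (fderiv ℝ (yv lg dc) x) := funext hA
    rw [h6]
    exact h5.comp hfs
  have hds : ContDiff ℝ ∞ (fun x => (A x).det) :=
    (Pool.Agent.Q84.LU.HAARM.det_smooth _).comp hAs
  have hAv : ∀ x v, A x v = L.symm (fderiv ℝ (yv lg dc) x v) := by
    intro x v; rw [hA]; rfl
  have hAinj : ∀ x, nx x < Λ⁻¹ ^ 2 → Function.Injective (A x) := by
    intro x hx
    rw [injective_iff_map_eq_zero]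
    intro v hv
    rw [hAv] at hv
    exact yv_inj U x hx v (by simpa using hv)
  have hA0 : (A 0).det = 1 := by
    have : A 0 = ContinuousLinearMap.id ℝ _ := by
      refine ContinuousLinearMap.ext fun v => ?_
      rw [hAv, ← hL]
      simp
    rw [this]
    exact LinearMap.det_id
  -- the inverse
  have hAE : ∀ x, nx x < Λ⁻¹ ^ 2 → ∃ E : ((Fin D × Fin n → ℝ) × (Fin dc.M → ℝ)) ≃L[ℝ]
      ((Fin D × Fin n → ℝ) × (Fin dc.M → ℝ)), ∀ v, E v = A x v := by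
    intro x hx
    exact ⟨(LinearEquiv.ofInjectiveEndo (A x).toLinearMap (hAinj x hx)).toContinuousLinearEquiv,
      fun v => rfl⟩
  have hdet0 : ∀ x, nx x < Λ⁻¹ ^ 2 → (A x).det ≠ 0 := by
    intro x hx
    have h1 := LinearEquiv.isUnit_det'
      (LinearEquiv.ofInjectiveEndo (A x).toLinearMap (hAinj x hx))
    exact h1.ne_zero
  have hnx0 : nx (0 : (Fin D × Fin n → ℝ) × (Fin dc.M → ℝ)) < Λ⁻¹ ^ 2 := by
    have : nx (0 : (Fin D × Fin n → ℝ) × (Fin dc.M → ℝ)) = 0 := by simp [nx, n2]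
    rw [this]; positivity
  have hpos : ∀ x, nx x < Λ⁻¹ ^ 2 → 0 < (A x).det := by
    intro x hx
    by_contra hcon
    have hle : (A x).det ≤ 0 := not_lt.1 hcon
    have hpre := (convex_lt (P := Fin D × Fin n) (Q := Fin dc.M) (Λ⁻¹ ^ 2)).isPreconnected
    have h1 := hpre.intermediate_value (show x ∈ {x | nx x < Λ⁻¹ ^ 2} from hx)
      (show (0 : (Fin D × Fin n → ℝ) × (Fin dc.M → ℝ)) ∈ {x | nx x < Λ⁻¹ ^ 2} from hnx0)
      (f := fun x => (A x).det) hds.continuous.continuousOn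
    have h2 : (0 : ℝ) ∈ Icc ((A x).det) ((A 0).det) := ⟨hle, by rw [hA0]; norm_num⟩
    obtain ⟨z, hz, hz0⟩ := h1 h2
    exact hdet0 z hz hz0
  refine ⟨hds, hpos, ?_⟩
  intro x z hx hz
  obtain ⟨E, hE⟩ := hAE x hx
  set T : ((Fin D × Fin n → ℝ) × (Fin dc.M → ℝ)) →L[ℝ] ((Fin D × Fin n → ℝ) × (Fin dc.M → ℝ)) :=
    (E.symm : _ →L[ℝ] _).comp (A z) with hT
  have hAT : A z = (A x).comp T := by
    refine ContinuousLinearMap.ext fun v => ?_
    have h1 : (A x) (T v) = E (T v) := (hE _).symm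
    rw [ContinuousLinearMap.comp_apply, h1]
    change A z v = E (E.symm (A z v))
    rw [ContinuousLinearEquiv.apply_symm_apply]
  have hdetm : (A z).det = (A x).det * T.det := by
    rw [hAT]
    exact LinearMap.det_comp _ _
  have hsq1 : Λ⁻¹ ^ 2 ≤ 1 := by
    have : Λ⁻¹ ≤ 1 := inv_le_one_of_one_le₀ hΛ1
    have h0 : 0 ≤ Λ⁻¹ := inv_nonneg.2 hΛ0.le
    nlinarith
  have hlip := ul_lip2 U x z (hx.le.trans hsq1) (hz.le.trans hsq1)
  have hcard2 : (Fintype.card (NT D l × Fin n) : ℝ) ≤ 2 * Λ := by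
    rw [← U.card]
    push_cast
    have h1 := U.cardP
    have h2 := U.cardQ
    linarith
  set t : ℝ := 2 * Λ ^ 3 * ‖z - x‖ with ht
  have ht0 : 0 ≤ t := by positivity
  have hTn : ‖T‖ ≤ 1 + t := by
    apply ContinuousLinearMap.opNorm_le_bound _ (by linarith)
    intro v
    set w := T v - v with hw
    have h1 : A x w = A z v - A x v := by
      rw [hw, map_sub]
      congr 1
      rw [hAT]; rfl
    have h2 : fderiv ℝ (yv lg dc) x w = fderiv ℝ (yv lg dc) z v - fderiv ℝ (yv lg dc) x v := by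
      rw [hAv, hAv, hAv, ← map_sub] at h1
      exact L.symm.injective h1
    have h3 : fderiv ℝ (ul lg dc) x w = (fderiv ℝ (ul lg dc) z - fderiv ℝ (ul lg dc) x) v := by
      rw [yv_fderiv U, yv_fderiv U, yv_fderiv U, ← map_sub] at h2
      exact cr_inj h2
    have h4 := U.nd x hx w
    have h5 : ‖fderiv ℝ (ul lg dc) x w‖ ≤ Λ * ‖z - x‖ * ‖v‖ := by
      rw [h3]
      exact (ContinuousLinearMap.le_opNorm _ v).trans
        (mul_le_mul_of_nonneg_right hlip (norm_nonneg _))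
    have h6 : n2 (fderiv ℝ (ul lg dc) x w) ≤ 2 * Λ * (Λ * ‖z - x‖ * ‖v‖) ^ 2 := by
      refine (n2_le_card _).trans ?_
      apply mul_le_mul hcard2 (pow_le_pow_left₀ (norm_nonneg _) h5 2) (sq_nonneg _)
      linarith
    have h7 : ‖w‖ ^ 2 ≤ (t * ‖v‖) ^ 2 := by
      calc ‖w‖ ^ 2 ≤ nx w := nsq_le w
        _ ≤ Λ ^ 2 * n2 (fderiv ℝ (ul lg dc) x w) := h4
        _ ≤ Λ ^ 2 * (2 * Λ * (Λ * ‖z - x‖ * ‖v‖) ^ 2) :=
            mul_le_mul_of_nonneg_left h6 (sq_nonneg _)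
        _ = 2 * Λ ^ 5 * (‖z - x‖ * ‖v‖) ^ 2 := by ring
        _ ≤ 4 * Λ ^ 6 * (‖z - x‖ * ‖v‖) ^ 2 := by
            apply mul_le_mul_of_nonneg_right _ (sq_nonneg _)
            have h8 : Λ ^ 5 ≤ Λ ^ 6 := pow_le_pow_right₀ hΛ1 (by norm_num)
            have h9 : 0 ≤ Λ ^ 5 := by positivity
            linarith
        _ = (t * ‖v‖) ^ 2 := by rw [ht]; ring
    have h8 : ‖w‖ ≤ t * ‖v‖ := by
      have h9 : 0 ≤ t * ‖v‖ := by positivity
      exact (pow_le_pow_iff_left₀ (norm_nonneg _) h9 (by norm_num)).1 h7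
    calc ‖T v‖ = ‖v + w‖ := by rw [hw]; congr 1; abel
      _ ≤ ‖v‖ + ‖w‖ := norm_add_le _ _
      _ ≤ ‖v‖ + t * ‖v‖ := by linarith
      _ = (1 + t) * ‖v‖ := by ring
  have hdT : T.det ≤ Real.exp (4 * Λ ^ 4 * ‖z - x‖) := by
    have h1 := det_le T
    have h2 : ‖T‖ ^ Module.finrank ℝ ((Fin D × Fin n → ℝ) × (Fin dc.M → ℝ)) ≤
        Real.exp t ^ Module.finrank ℝ ((Fin D × Fin n → ℝ) × (Fin dc.M → ℝ)) := by
      apply pow_le_pow_left₀ (norm_nonneg _)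
      have := Real.add_one_le_exp t
      linarith
    have h3 : ((Module.finrank ℝ ((Fin D × Fin n → ℝ) × (Fin dc.M → ℝ)) : ℕ) : ℝ) ≤ 2 * Λ := by
      rw [Module.finrank_prod, Module.finrank_fintype_fun_eq_card,
        Module.finrank_fintype_fun_eq_card, U.card]
      exact hcard2
    rw [← Real.exp_nat_mul] at h2
    refine (le_abs_self _).trans (h1.trans (h2.trans ?_))
    apply Real.exp_le_exp.2
    calc _ ≤ 2 * Λ * t := mul_le_mul_of_nonneg_right h3 ht0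
      _ = 4 * Λ ^ 4 * ‖z - x‖ := by rw [ht]; ring
  rw [hdetm]
  exact mul_le_mul_of_nonneg_left hdT (hpos x hx).le

/-- Haar measure in the chart for one decomposition. -/
lemma hmu_core [MeasurableSpace G] [BorelSpace G] (μ : Measure G) [IsProbabilityMeasure μ]
    (hE : ExpChart B lg ε r) (j : (Fin n → ℝ) → ℝ) (hj : ContDiff ℝ ∞ j) (hj0 : ∀ v, 0 < j v)
    (hμ : μ.restrict (dom lg ε r) = (nuM j r).map (eG B)) (b : ℝ) (hb0 : 0 ≤ b)
    (hb : ∀ v w : Fin n → ℝ, ‖v‖ ≤ r → ‖w‖ ≤ r → j w ≤ j v * Real.exp (b * ‖w - v‖))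
    (U : UL lg ε r dc Λ) : HmR μ dc (8 * (4 + b) * Λ ^ 5)⁻¹ := by
  classical
  have hr := hE.r_pos
  have hΛ1 := U.one
  have hΛ0 : 0 < Λ := by linarith
  have hys := yv_smooth U
  have hyd : Differentiable ℝ (yv lg dc) := hys.differentiable (by simp)
  have hnx0 : nx (0 : (Fin D × Fin n → ℝ) × (Fin dc.M → ℝ)) < Λ⁻¹ ^ 2 := by
    have : nx (0 : (Fin D × Fin n → ℝ) × (Fin dc.M → ℝ)) = 0 := by simp [nx, n2]
    rw [this]; positivity
  -- the linear equivalence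
  have hfr : Module.finrank ℝ ((Fin D × Fin n → ℝ) × (Fin dc.M → ℝ)) =
      Module.finrank ℝ (NT D l → Fin n → ℝ) := by
    rw [Module.finrank_prod, Module.finrank_fintype_fun_eq_card,
      Module.finrank_fintype_fun_eq_card, Module.finrank_pi_fintype]
    simp only [Module.finrank_fintype_fun_eq_card, Fintype.card_fin, Finset.sum_const,
      Finset.card_univ, smul_eq_mul]
    have := U.card
    rw [Fintype.card_prod (NT D l), Fintype.card_fin n] at this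
    simpa using this
  have hDinj : Function.Injective (fderiv ℝ (yv lg dc) 0 :
      (Fin D × Fin n → ℝ) × (Fin dc.M → ℝ) →ₗ[ℝ] (NT D l → Fin n → ℝ)) := by
    rw [injective_iff_map_eq_zero]
    exact yv_inj U 0 hnx0
  set L : ((Fin D × Fin n → ℝ) × (Fin dc.M → ℝ)) ≃L[ℝ] (NT D l → Fin n → ℝ) :=
    (LinearEquiv.ofInjectiveOfFinrankEq _ hDinj hfr).toContinuousLinearEquiv with hL
  have hLa : ∀ v, L v = fderiv ℝ (yv lg dc) 0 v := fun v => rfl
  obtain ⟨c, hc, hcov⟩ := Pool.Agent.Q84.LU.HAARM.cov (n := n) L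
  obtain ⟨hds, hdpos, hdlip⟩ := det_props U L hLa
    (fun x => (L.symm : (NT D l → Fin n → ℝ) →L[ℝ] _).comp (fderiv ℝ (yv lg dc) x)) (fun x => rfl)
  set A : (Fin D × Fin n → ℝ) × (Fin dc.M → ℝ) → (((Fin D × Fin n → ℝ) × (Fin dc.M → ℝ)) →L[ℝ]
    ((Fin D × Fin n → ℝ) × (Fin dc.M → ℝ))) :=
    fun x => (L.symm : (NT D l → Fin n → ℝ) →L[ℝ] _).comp (fderiv ℝ (yv lg dc) x) with hA
  set J₀ : (Fin D × Fin n → ℝ) × (Fin dc.M → ℝ) → ℝ :=
    fun x => c * (A x).det * ∏ e, j (yv lg dc x e) with hJ₀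
  have hJ₀s : ContDiff ℝ ∞ J₀ := by
    apply ContDiff.mul (contDiff_const.mul hds)
    apply contDiff_prod
    intro e _
    exact hj.comp ((contDiff_pi.1 hys) e)
  have hJ₀p : ∀ x, nx x < Λ⁻¹ ^ 2 → 0 < J₀ x := by
    intro x hx
    have h5 : 0 < (A x).det := hdpos x hx
    have h6 : 0 < ∏ e, j (yv lg dc x e) := Finset.prod_pos fun e _ => hj0 _
    positivity
  set M : ℝ := (4 + b) * Λ ^ 4 with hM
  have hM0 : 0 < M := by positivity
  have hsq1 : Λ⁻¹ ^ 2 ≤ 1 := by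
    have : Λ⁻¹ ≤ 1 := inv_le_one_of_one_le₀ hΛ1
    have h0 : 0 ≤ Λ⁻¹ := inv_nonneg.2 hΛ0.le
    nlinarith
  have hJ₀l : ∀ x z, nx x < Λ⁻¹ ^ 2 → nx z < Λ⁻¹ ^ 2 →
      J₀ z ≤ J₀ x * Real.exp (M * ‖z - x‖) := by
    intro x z hx hz
    have g1 := hdlip x z hx hz
    have hu := mvt U.sm U.d1 x z (hx.le.trans hsq1) (hz.le.trans hsq1)
    have hin : ∀ w, nx w < Λ⁻¹ ^ 2 → ∀ e, ‖yv lg dc w e‖ ≤ r := by
      intro w hw e
      have h5 := (U.dm w hw e).2
      have h6 := Pool.Agent.Q84.LU.HAARM.norm_sq_le_n2 (lg (Pool.Agent.Q77.LU.mt (dc.th w e)))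
      exact (lt_of_pow_lt_pow_left₀ 2 hr.le (lt_of_le_of_lt h6 h5)).le
    have g2 : ∀ e, j (yv lg dc z e) ≤ j (yv lg dc x e) * Real.exp (b * (Λ * ‖z - x‖)) := by
      intro e
      have h5 := hb (yv lg dc x e) (yv lg dc z e) (hin x hx e) (hin z hz e)
      refine h5.trans (mul_le_mul_of_nonneg_left (Real.exp_le_exp.2 ?_) (hj0 _).le)
      apply mul_le_mul_of_nonneg_left _ hb0
      have h6 : yv lg dc z e - yv lg dc x e = cr (NT D l) n (ul lg dc z - ul lg dc x) e := by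
        rw [map_sub]; rfl
      rw [h6]
      exact (cr_norm _ e).trans hu
    have g3 : ∏ e, j (yv lg dc z e) ≤
        (∏ e, j (yv lg dc x e)) * Real.exp (b * Λ ^ 2 * ‖z - x‖) := by
      calc ∏ e, j (yv lg dc z e)
          ≤ ∏ e, (j (yv lg dc x e) * Real.exp (b * (Λ * ‖z - x‖))) :=
            Finset.prod_le_prod (fun e _ => (hj0 _).le) (fun e _ => g2 e)
        _ = (∏ e, j (yv lg dc x e)) *
            Real.exp (Fintype.card (NT D l) * (b * (Λ * ‖z - x‖))) := by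
            rw [Finset.prod_mul_distrib, Finset.prod_const, Finset.card_univ, Real.exp_nat_mul]
        _ ≤ _ := by
            apply mul_le_mul_of_nonneg_left _ (Finset.prod_nonneg fun e _ => (hj0 _).le)
            apply Real.exp_le_exp.2
            have h7 : (0 : ℝ) ≤ b * (Λ * ‖z - x‖) := by positivity
            calc _ ≤ Λ * (b * (Λ * ‖z - x‖)) := mul_le_mul_of_nonneg_right U.cardS h7
              _ = _ := by ring
    have hp1 : 0 < (A x).det := hdpos x hx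
    have hp2 : 0 ≤ ∏ e, j (yv lg dc z e) := Finset.prod_nonneg fun e _ => (hj0 _).le
    calc J₀ z = c * ((A z).det * ∏ e, j (yv lg dc z e)) := by simp only [hJ₀]; ring
      _ ≤ c * (((A x).det * Real.exp (4 * Λ ^ 4 * ‖z - x‖)) *
          ((∏ e, j (yv lg dc x e)) * Real.exp (b * Λ ^ 2 * ‖z - x‖))) := by
          apply mul_le_mul_of_nonneg_left _ hc.le
          apply mul_le_mul g1 g3 hp2
          positivity
      _ = J₀ x * Real.exp (4 * Λ ^ 4 * ‖z - x‖ + b * Λ ^ 2 * ‖z - x‖) := by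
          rw [Real.exp_add]; simp only [hJ₀]; ring
      _ ≤ J₀ x * Real.exp (M * ‖z - x‖) := by
          apply mul_le_mul_of_nonneg_left _ (hJ₀p x hx).le
          apply Real.exp_le_exp.2
          have h8 : Λ ^ 2 ≤ Λ ^ 4 := pow_le_pow_right₀ hΛ1 (by norm_num)
          have h9 := norm_nonneg (z - x)
          have h10 : b * Λ ^ 2 ≤ b * Λ ^ 4 := mul_le_mul_of_nonneg_left h8 hb0
          calc 4 * Λ ^ 4 * ‖z - x‖ + b * Λ ^ 2 * ‖z - x‖ =
              (4 * Λ ^ 4 + b * Λ ^ 2) * ‖z - x‖ := by ring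
            _ ≤ (4 * Λ ^ 4 + b * Λ ^ 4) * ‖z - x‖ :=
                mul_le_mul_of_nonneg_right (by linarith) h9
            _ = M * ‖z - x‖ := by rw [hM]; ring
  have hnxc : Continuous (nx : (Fin D × Fin n → ℝ) × (Fin dc.M → ℝ) → ℝ) :=
    Pool.Agent.Q84.LU.HAARM.nx_cont
  have hgr : ∀ x, nx x < Λ⁻¹ ^ 2 → ‖fderiv ℝ J₀ x‖ ≤ M * J₀ x := by
    intro x hx
    apply grad_le J₀ x M hM0.le ((hJ₀s.differentiable (by simp)) x) (hJ₀p x hx)
    have h5 : {z : (Fin D × Fin n → ℝ) × (Fin dc.M → ℝ) | nx z < Λ⁻¹ ^ 2} ∈ 𝓝 x :=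
      (isOpen_lt hnxc continuous_const).mem_nhds hx
    filter_upwards [h5] with z hz
    exact hJ₀l x z hx hz
  -- the radii
  set Λ' : ℝ := 8 * (4 + b) * Λ ^ 5 with hΛ'
  have hΛ'0 : 0 < Λ' := by positivity
  set δ : ℝ := (2 * Λ ^ 2)⁻¹ with hδ
  have hδ0 : 0 < δ := by positivity
  have hball : ∀ x : (Fin D × Fin n → ℝ) × (Fin dc.M → ℝ), ‖x‖ < δ → nx x < Λ⁻¹ ^ 2 := by
    intro x hx
    have h5 := nx_le_card x
    have h6 : ‖x‖ ^ 2 ≤ δ ^ 2 := pow_le_pow_left₀ (norm_nonneg _) hx.le 2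
    have h7 : (Fintype.card (Fin D × Fin n) : ℝ) + Fintype.card (Fin dc.M) ≤ 2 * Λ := by
      have := U.cardP
      have := U.cardQ
      linarith
    calc nx x ≤ _ := h5
      _ ≤ 2 * Λ * δ ^ 2 := mul_le_mul h7 h6 (sq_nonneg _) (by linarith)
      _ < Λ⁻¹ ^ 2 := by
          rw [hδ, inv_pow, inv_pow, ← div_eq_mul_inv, div_lt_iff₀ (by positivity),
            ← div_eq_inv_mul, lt_div_iff₀ (by positivity)]
          have h8 : Λ ^ 3 ≤ Λ ^ 4 := pow_le_pow_right₀ hΛ1 (by norm_num)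
          have h9 : 0 < Λ ^ 4 := by positivity
          nlinarith
  have hΛ5 : Λ ^ 5 ≤ Λ' := by
    have h5 : 0 < Λ ^ 5 := by positivity
    have h6 : 0 ≤ b * Λ ^ 5 := by positivity
    have h7 : Λ' = 32 * Λ ^ 5 + 8 * (b * Λ ^ 5) := by rw [hΛ']; ring
    linarith
  have hΛ52 : 4 * Λ ^ 2 ≤ Λ' := by
    have h5 : Λ ^ 2 ≤ Λ ^ 5 := pow_le_pow_right₀ hΛ1 (by norm_num)
    have h50 : 0 < Λ ^ 5 := by positivity
    have h6 : 0 ≤ b * Λ ^ 5 := by positivity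
    have h7 : Λ' = 32 * Λ ^ 5 + 8 * (b * Λ ^ 5) := by rw [hΛ']; ring
    linarith
  have hr'δ : Λ'⁻¹ ≤ δ / 2 := by
    have h5 : δ / 2 = (4 * Λ ^ 2)⁻¹ := by
      rw [hδ, show 4 * Λ ^ 2 = (2 * Λ ^ 2) * 2 by ring, mul_inv (2 * Λ ^ 2), div_eq_mul_inv]
    rw [h5]
    exact inv_anti₀ (by positivity) hΛ52
  have hr'Λ : Λ'⁻¹ ≤ Λ⁻¹ := by
    apply inv_anti₀ hΛ0
    have h5 : Λ ^ 1 ≤ Λ ^ 5 := pow_le_pow_right₀ hΛ1 (by norm_num)
    rw [pow_one] at h5
    exact h5.trans hΛ5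
  let bump : ContDiffBump (0 : (Fin D × Fin n → ℝ) × (Fin dc.M → ℝ)) :=
    ⟨δ / 2, δ, by positivity, by linarith⟩
  have hbs : ContDiff ℝ ∞ (fun x => bump x) := bump.contDiff
  have hb1 : ∀ x : (Fin D × Fin n → ℝ) × (Fin dc.M → ℝ), nx x < Λ'⁻¹ ^ 2 → bump x = 1 := by
    intro x hx
    apply bump.one_of_mem_closedBall
    rw [mem_closedBall_zero_iff]
    have := Pool.Agent.Q84.LU.HAARM.nx_ball (inv_pos.2 hΛ'0) hx
    exact (this.le).trans hr'δ
  refine ⟨inv_pos.2 hΛ'0, fun x => bump x * J₀ x + (1 - bump x),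
    (hbs.mul hJ₀s).add (contDiff_const.sub hbs), ?_, ?_, ?_⟩
  · intro x
    by_cases hx : ‖x‖ < δ
    · have h5 := hJ₀p x (hball x hx)
      have h6 : 0 ≤ bump x := bump.nonneg
      have h7 : bump x ≤ 1 := bump.le_one
      change 0 < bump x * J₀ x + (1 - bump x)
      rcases h6.lt_or_eq with h8 | h8
      · have := mul_pos h8 h5
        linarith
      · rw [← h8]; norm_num
    · have h5 : bump x = 0 := by
        apply bump.zero_of_le_dist
        rw [dist_zero_right]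
        exact not_lt.1 hx
      change 0 < bump x * J₀ x + (1 - bump x)
      rw [h5]; norm_num
  · intro x hx
    have hev : (fun x => bump x * J₀ x + (1 - bump x)) =ᶠ[𝓝 x] J₀ := by
      have h5 : {z : (Fin D × Fin n → ℝ) × (Fin dc.M → ℝ) | nx z < Λ'⁻¹ ^ 2} ∈ 𝓝 x :=
        (isOpen_lt hnxc continuous_const).mem_nhds hx
      filter_upwards [h5] with z hz
      rw [hb1 z hz]; ring
    have hfe := hev.fderiv_eq (𝕜 := ℝ)
    have hJe : bump x * J₀ x + (1 - bump x) = J₀ x := by rw [hb1 x hx]; ring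
    have hxΛ : nx x < Λ⁻¹ ^ 2 :=
      hx.trans_le (pow_le_pow_left₀ (inv_nonneg.2 hΛ'0.le) hr'Λ 2)
    have h5 := grad_card (fun x => bump x * J₀ x + (1 - bump x)) x
    rw [hfe] at h5
    refine h5.trans ?_
    have h6 := hgr x hxΛ
    have h7 : (Fintype.card (Fin D × Fin n) : ℝ) + Fintype.card (Fin dc.M) ≤ 2 * Λ := by
      have := U.cardP
      have := U.cardQ
      linarith
    have hJp := hJ₀p x hxΛ
    calc _ ≤ 2 * Λ * (M * J₀ x) ^ 2 := by
          apply mul_le_mul h7 (pow_le_pow_left₀ (norm_nonneg _) h6 2) (sq_nonneg _)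
          linarith
      _ ≤ (Λ'⁻¹⁻¹ * J₀ x) ^ 2 := by
          rw [inv_inv, hM, hΛ']
          have h8 : Λ ^ 9 ≤ Λ ^ 10 := pow_le_pow_right₀ hΛ1 (by norm_num)
          have e1 : 2 * Λ * ((4 + b) * Λ ^ 4 * J₀ x) ^ 2 =
            2 * ((4 + b) * J₀ x) ^ 2 * Λ ^ 9 := by ring
          have e2 : (8 * (4 + b) * Λ ^ 5 * J₀ x) ^ 2 =
            64 * ((4 + b) * J₀ x) ^ 2 * Λ ^ 10 := by ring
          rw [e1, e2]
          have h9 : 0 ≤ ((4 + b) * J₀ x) ^ 2 := sq_nonneg _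
          have h10 : 0 ≤ Λ ^ 10 := by positivity
          have h11 : ((4 + b) * J₀ x) ^ 2 * Λ ^ 9 ≤ ((4 + b) * J₀ x) ^ 2 * Λ ^ 10 :=
            mul_le_mul_of_nonneg_left h8 h9
          nlinarith [mul_nonneg h9 h10]
      _ = _ := by
          change _ = (Λ'⁻¹⁻¹ * (bump x * J₀ x + (1 - bump x))) ^ 2
          rw [hJe]
  · intro ρ hρ hρr Φ hΦ
    have hρΛ : ρ ≤ Λ⁻¹ := hρr.trans hr'Λ
    set S : Set ((Fin D × Fin n → ℝ) × (Fin dc.M → ℝ)) := {x | nx x < ρ ^ 2} with hS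
    have hSo : IsOpen S := isOpen_lt hnxc continuous_const
    have hSΛ : ∀ x ∈ S, nx x < Λ⁻¹ ^ 2 := fun x hx =>
      lt_of_lt_of_le hx (pow_le_pow_left₀ hρ.le hρΛ 2)
    have hSdom : ∀ x ∈ S, ∀ e, dc.th x e ∈ (dom lg ε r : Set G) := fun x hx => U.dm x (hSΛ x hx)
    have hSy : ∀ x ∈ S, ∀ e, eG B (yv lg dc x e) = dc.th x e := fun x hx e =>
      hE.eG_lg _ (hSdom x hx e).1
    have huinj : ∀ x ∈ S, ∀ z ∈ S, ul lg dc x = ul lg dc z → x = z := by
      intro x hx z hz h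
      have h5 := U.inj x z (hSΛ x hx) (hSΛ z hz)
      rw [h, sub_self] at h5
      have h6 : x - z = 0 := by
        apply nx_eq_zero
        refine h5.trans (le_of_eq ?_)
        simp [n2]
      exact sub_eq_zero.1 h6
    have hyinj : Set.InjOn (yv lg dc) S := by
      intro a ha b hb hab
      exact huinj a ha b hb (cr_inj hab)
    -- the image is open
    have hlgc : Continuous lg := hE.smooth.continuous
    have hTe : dc.th '' S = {V : NT D l → G | ∀ e, V e ∈ (dom lg ε r : Set G)} ∩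
        (fun (V : NT D l → G) (q : NT D l × Fin n) => lg (Pool.Agent.Q77.LU.mt (V q.1)) q.2) ⁻¹'
          (ul lg dc '' S) := by
      ext V
      constructor
      · rintro ⟨x, hx, rfl⟩
        exact ⟨hSdom x hx, x, hx, rfl⟩
      · rintro ⟨hV, x, hx, hxV⟩
        refine ⟨x, hx, ?_⟩
        funext e
        have h5 : lg (Pool.Agent.Q77.LU.mt (dc.th x e)) = lg (Pool.Agent.Q77.LU.mt (V e)) := by
          funext a
          exact congrFun hxV (e, a)
        rw [← hE.eG_lg _ (hSdom x hx e).1, h5, hE.eG_lg _ (hV e).1]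
    have hTo : IsOpen (dc.th '' S) := by
      rw [hTe]
      apply IsOpen.inter
      · have : {V : NT D l → G | ∀ e, V e ∈ (dom lg ε r : Set G)} =
            ⋂ e, (fun V : NT D l → G => V e) ⁻¹' (dom lg ε r : Set G) := by ext V; simp
        rw [this]
        exact isOpen_iInter_of_finite fun e =>
          (Pool.Agent.Q84.LU.HAARM.dom_open hlgc).preimage (continuous_apply e)
      · apply (U.opn ρ hρ hρΛ).preimage
        apply continuous_pi
        intro q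
        have h5 : Continuous (fun V : NT D l → G => lg (Pool.Agent.Q77.LU.mt (V q.1))) :=
          hlgc.comp (continuous_mt.comp (continuous_apply q.1))
        exact (continuous_apply q.2).comp h5
    have hTd : ∀ V ∈ dc.th '' S, ∀ e, V e ∈ (dom lg ε r : Set G) := by
      rintro V ⟨x, hx, rfl⟩ e
      exact hSdom x hx e
    rw [Pool.Agent.Q84.LU.HAARM.pullback μ hE j hj.continuous hj0 hμ (dc.th '' S)
      hTo.measurableSet hTd Φ hΦ]
    have hset : {w : NT D l → Fin n → ℝ | (∀ e, n2 (w e) < r ^ 2) ∧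
        (fun e => eG B (w e)) ∈ dc.th '' S} = yv lg dc '' S := by
      ext w
      constructor
      · rintro ⟨hw, x, hx, hxw⟩
        refine ⟨x, hx, ?_⟩
        funext e
        have h5 : dc.th x e = eG B (w e) := congrFun hxw e
        rw [yv_apply, h5, hE.lg_eG _ (hw e)]
      · rintro ⟨x, hx, rfl⟩
        refine ⟨fun e => (hSdom x hx e).2, x, hx, funext fun e => (hSy x hx e).symm⟩
    rw [hset, hcov (yv lg dc) hyd S hSo.measurableSet hyinj]
    apply setIntegral_congr_fun hSo.measurableSet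
    intro x hx
    have hxr : nx x < Λ'⁻¹ ^ 2 := lt_of_lt_of_le hx (pow_le_pow_left₀ hρ.le hρr 2)
    have hdet : 0 < (A x).det := hdpos x (hSΛ x hx)
    have hΦx : (fun e => eG B (yv lg dc x e)) = dc.th x := funext fun e => hSy x hx e
    change (c * |(A x).det|) * ((∏ e, j (yv lg dc x e)) * Φ (fun e => eG B (yv lg dc x e))) =
      Φ (dc.th x) * (bump x * J₀ x + (1 - bump x))
    rw [hΦx, hb1 x hxr, abs_of_pos hdet]
    simp only [hJ₀]
    ring

end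

/-- Job HMU: Haar measure in the chart. -/
theorem t_HMU (h1 : S_EXPG) (h2 : S_LOGC) (h3 : S_QIF) (h4 : S_THD) (h5 : S_THDU) (h6 : S_CARD)
    (_h7 : S_HAAR1) : S_HMU := by
  intro N n D G hG B _ _ μ _ _
  obtain ⟨ρ₀, j, hρ₀, hj, hj0, hH⟩ := Pool.Agent.Q84.LU.t_HAAR2 h1 h2 N n G hG B μ
  obtain ⟨lg, ε, r, hE, hrρ⟩ := Pool.Agent.Q84.LU.HAARM.exists_chart h1 h2 hG B ρ₀ hρ₀
  have hr := hE.r_pos
  have hμ : μ.restrict (dom lg ε r) = (nuM j r).map (eG B) :=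
    Pool.Agent.Q84.LU.HAARM.haar_chart μ hE j hj.continuous hj0 (hH r hr hrρ)
  obtain ⟨b, hb0, hb⟩ := logLip j hj hj0 r
  obtain ⟨p, C, hC, hU⟩ := exists_ul h1 h3 h4 h5 h6 N n D G hG B lg ε r hE
  refine ⟨p * 5, 8 * (4 + b) * C ^ 5, ?_, ?_⟩
  · have h8 : 1 ≤ C ^ 5 := one_le_pow₀ hC
    have h9 : 1 ≤ 8 * (4 + b) := by linarith
    calc (1 : ℝ) = 1 * 1 := (one_mul 1).symm
      _ ≤ 8 * (4 + b) * C ^ 5 := mul_le_mul h9 h8 zero_le_one (by linarith)
  · intro l _ dc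
    obtain ⟨_, s2, _, _⟩ := h4 N n D l G hG B dc
    have h := hmu_core μ hE j hj hj0 hμ b hb0 hb (hU l dc)
    have e : 8 * (4 + b) * C ^ 5 * (l : ℝ) ^ (p * 5) = 8 * (4 + b) * (C * (l : ℝ) ^ p) ^ 5 := by
      rw [mul_pow, ← pow_mul]; ring
    rw [e]
    exact h

end

end Pool.Agent.Q48.LU
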